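import Pool.Agent.Q126.NS.Def
import Pool.Agent.H121R3.Lap
import Pool.Agent.W268.NS.Fin
import Pool.Agent.TH811.SPD.Str1

/-!
Calculus at the points where a periodic function has its maximum.
-/

set_option autoImplicit false

open MeasureTheory Set Filter Topology
open H459R3.NS Pool.Agent.W268.NS H121R3
open scoped ContDiff

namespace Pool.Agent.Q126.NS

theorem exists_cube' (x : V) : ∃ y ∈ cube, ∃ m : K3, x = y + fun i => (m i : ℝ) :=
  Pool.Agent.TH811.SPD.exists_cube x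

theorem exists_max_per {f : V → ℝ} (hf : Continuous f) (hp : Per f) : ∃ x, ∀ y, f y ≤ f x := by
  have hne : (cube : Set V).Nonempty := ⟨0, by simp [cube]⟩
  obtain ⟨x, -, hx⟩ := (isCompact_Icc : IsCompact (cube : Set V)).exists_isMaxOn hne hf.continuousOn
  refine ⟨x, fun y => ?_⟩
  obtain ⟨z, hz, m, rfl⟩ := exists_cube' y
  rw [hp.int]
  exact hx hz

theorem unit_compact : IsCompact {e : V | Unit e} := by
  refine Metric.isCompact_of_isClosed_isBounded ?_ ?_
  · have : Continuous fun e : V => ∑ i, e i ^ 2 := by fun_prop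
    exact isClosed_singleton.preimage this
  · refine (Metric.isBounded_closedBall (x := (0 : V)) (r := 1)).subset fun e he => ?_
    rw [Metric.mem_closedBall, dist_zero_right, pi_norm_le_iff_of_nonneg (by norm_num)]
    intro i
    have he' : ∑ i, e i ^ 2 = 1 := he
    have : e i ^ 2 ≤ 1 := by
      rw [← he']
      exact Finset.single_le_sum (f := fun i => e i ^ 2) (fun j _ => sq_nonneg _)
        (Finset.mem_univ i)
    rw [Real.norm_eq_abs]
    exact abs_le_one_iff_mul_self_le_one.2 (by nlinarith)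

theorem unit_single : Unit (Pi.single 0 1 : V) := by
  simp [Unit, Fin.sum_univ_three]

theorem exists_max_unit {g : V → V → ℝ} (hg : Continuous fun q : V × V => g q.1 q.2)
    (hp : ∀ e, Per fun x => g x e) :
    ∃ x e, Unit e ∧ ∀ y f, Unit f → g y f ≤ g x e := by
  have hK : IsCompact ((cube : Set V) ×ˢ {e : V | Unit e}) :=
    (isCompact_Icc : IsCompact (cube : Set V)).prod unit_compact
  have hne : ((cube : Set V) ×ˢ {e : V | Unit e}).Nonempty :=
    ⟨(0, Pi.single 0 1), by simp [cube], unit_single⟩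
  obtain ⟨q, hq, hmax⟩ := hK.exists_isMaxOn hne hg.continuousOn
  refine ⟨q.1, q.2, hq.2, fun y f hf => ?_⟩
  obtain ⟨z, hz, m, rfl⟩ := exists_cube' y
  have h1 := (hp f).int m z
  rw [h1]
  exact hmax (show (z, f) ∈ (cube : Set V) ×ˢ {e : V | Unit e} from ⟨hz, hf⟩)

/-- bounds on compact time intervals -/
theorem slab_bound {f : ℝ → V → ℝ} {a b : ℝ}
    (hf : ContinuousOn (fun z : ℝ × V => f z.1 z.2) (Icc a b ×ˢ univ))
    (hp : ∀ t ∈ Icc a b, Per (f t)) : ∃ C : ℝ, 0 ≤ C ∧ ∀ t ∈ Icc a b, ∀ x, |f t x| ≤ C := by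
  have hK : IsCompact (Icc a b ×ˢ (cube : Set V)) := isCompact_Icc.prod isCompact_Icc
  obtain ⟨C, hC⟩ := hK.exists_bound_of_continuousOn (hf.mono (prod_mono subset_rfl (subset_univ _)))
  refine ⟨|C|, abs_nonneg _, fun t ht x => ?_⟩
  obtain ⟨z, hz, m, rfl⟩ := exists_cube' x
  rw [(hp t ht).int]
  have := hC (t, z) ⟨ht, hz⟩
  rw [Real.norm_eq_abs] at this
  exact this.trans (le_abs_self _)

/-- Lipschitz bounds in time -/
theorem time_lip {T : ℝ} {f : ℝ → V → ℝ}
    (hf : ContDiffOn ℝ ∞ (fun z : ℝ × V => f z.1 z.2) (Ico 0 T ×ˢ univ))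
    (hp : ∀ t ∈ Ico 0 T, Per (f t)) {a b : ℝ} (ha : 0 < a) (hb : b < T) :
    ∃ C : ℝ, 0 ≤ C ∧ ∀ r ∈ Icc a b, ∀ t ∈ Icc a b, ∀ x, |f t x - f r x| ≤ C * |t - r| := by
  have hsub : Icc a b ⊆ Ioo 0 T := fun s hs => ⟨ha.trans_le hs.1, hs.2.trans_lt hb⟩
  have hO : IsOpen (Ioo 0 T ×ˢ (univ : Set V)) := isOpen_Ioo.prod isOpen_univ
  have h1 : ContDiffOn ℝ 1 (fun z : ℝ × V => f z.1 z.2) (Ioo 0 T ×ˢ univ) :=
    mono_Ioo hf (by norm_cast)
  have hd : ContinuousOn (fun z : ℝ × V =>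
      fderiv ℝ (fun z : ℝ × V => f z.1 z.2) z (1, 0)) (Ioo 0 T ×ˢ univ) :=
    (h1.continuousOn_fderiv_of_isOpen hO le_rfl).clm_apply continuousOn_const
  have hK : IsCompact (Icc a b ×ˢ (cube : Set V)) := isCompact_Icc.prod isCompact_Icc
  obtain ⟨C, hC⟩ := hK.exists_bound_of_continuousOn
    (hd.mono (prod_mono hsub (subset_univ _)))
  refine ⟨|C|, abs_nonneg _, fun r hr t ht x => ?_⟩
  obtain ⟨z, hz, m, rfl⟩ := exists_cube' x
  rw [(hp t (Ioo_subset_Ico_self (hsub ht))).int, (hp r (Ioo_subset_Ico_self (hsub hr))).int]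
  have h2 := (convex_Icc a b).norm_image_sub_le_of_norm_hasDerivWithin_le
    (f := fun s => f s z) (f' := fun s => fderiv ℝ (fun z : ℝ × V => f z.1 z.2) (s, z) (1, 0))
    (C := |C|) (fun s hs => (hasDerivAt_slice h1 (hsub hs) z).hasDerivWithinAt)
    (fun s hs => (hC (s, z) ⟨hs, hz⟩).trans (le_abs_self _)) hr ht
  rw [Real.norm_eq_abs, Real.norm_eq_abs] at h2
  exact h2

theorem D2.mul {φ ψ : ℝ → ℝ} {A B C D : ℝ} (h : D2 φ A B) (k : D2 ψ C D) :
    D2 (fun t => φ t * ψ t) (A * ψ 0 + φ 0 * C) (B * ψ 0 + 2 * (A * C) + φ 0 * D) := by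
  obtain ⟨φ', h1, h2, h3⟩ := h
  obtain ⟨ψ', k1, k2, k3⟩ := k
  refine ⟨fun t => φ' t * ψ t + φ t * ψ' t, ?_, by simp only [h2, k2], ?_⟩
  · filter_upwards [h1, k1] with t a b using a.mul b
  · have := (h3.mul k1.self_of_nhds).add (h1.self_of_nhds.mul k3)
    refine this.congr_deriv ?_
    rw [h2, k2]
    ring

theorem D2.sum {ι : Type*} (s : Finset ι) {φ : ι → ℝ → ℝ} {A B : ι → ℝ}
    (h : ∀ i ∈ s, D2 (φ i) (A i) (B i)) :
    D2 (fun t => ∑ i ∈ s, φ i t) (∑ i ∈ s, A i) (∑ i ∈ s, B i) := by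
  classical
  induction s using Finset.induction_on with
  | empty => simpa using D2.const 0
  | insert a s ha ih =>
    simp only [Finset.sum_insert ha]
    exact (h a (Finset.mem_insert_self a s)).add
      (ih fun i hi => h i (Finset.mem_insert_of_mem hi))

theorem line_D2 {f : V → ℝ} (hf : SP f) (x : V) (k : Fin 3) :
    D2 (fun τ : ℝ => f (x + τ • (Pi.single k 1 : V))) (pd k f x) (pd k (pd k f) x) := by
  have hl : ∀ τ : ℝ, HasDerivAt (fun τ : ℝ => x + τ • (Pi.single k 1 : V)) (Pi.single k 1) τ := by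
    intro τ
    have := ((hasDerivAt_id τ).smul_const (Pi.single k 1 : V)).const_add x
    simpa using this
  have key : ∀ {g : V → ℝ}, SP g → ∀ τ : ℝ, HasDerivAt (fun τ : ℝ => g (x + τ • (Pi.single k 1 : V)))
      (pd k g (x + τ • (Pi.single k 1 : V))) τ := by
    intro g hg τ
    exact (hg.diff _).hasFDerivAt.comp_hasDerivAt τ (hl τ)
  refine ⟨fun τ => pd k f (x + τ • (Pi.single k 1 : V)), Eventually.of_forall fun τ => key hf τ,
    by simp, ?_⟩
  have := key (hf.pd k) 0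
  simpa using this

theorem max_first {f : V → ℝ} (_hf : SP f) {x : V} (hx : ∀ y, f y ≤ f x) (k : Fin 3) :
    pd k f x = 0 := by
  have h : IsLocalMax f x := Eventually.of_forall hx
  unfold pd
  rw [h.fderiv_eq_zero]
  simp

theorem max_second {f : V → ℝ} (hf : SP f) {x : V} (hx : ∀ y, f y ≤ f x) (k : Fin 3) :
    pd k (pd k f) x ≤ 0 := by
  refine (line_D2 hf x k).nonpos (Eventually.of_forall fun τ => ?_)
  simp only [zero_smul, add_zero]
  exact hx _

theorem max_lap {f : V → ℝ} (hf : SP f) {x : V} (hx : ∀ y, f y ≤ f x) : lap f x ≤ 0 :=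
  Finset.sum_nonpos fun k _ => max_second hf hx k

/-- at a maximum of `∑ gᵢ²` -/
theorem max_sq {g : Fin 3 → V → ℝ} (hg : ∀ i, SP (g i)) {x : V}
    (hx : ∀ y, ∑ i, g i y ^ 2 ≤ ∑ i, g i x ^ 2) :
    (∀ k, ∑ i, g i x * pd k (g i) x = 0) ∧
      ∑ i, g i x * lap (g i) x ≤ -∑ i, ∑ j, pd j (g i) x ^ 2 := by
  have e0 : (fun y => ∑ i, g i y ^ 2) = fun y => ∑ i, g i y * g i y := by
    funext y; exact Finset.sum_congr rfl fun i _ => sq _
  have hG : SP (fun y => ∑ i, g i y * g i y) := SP.sum fun i _ => (hg i).mul (hg i)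
  have hx' : ∀ y, (fun y => ∑ i, g i y * g i y) y ≤ (fun y => ∑ i, g i y * g i y) x := by
    rw [← e0]; exact hx
  have e1 : ∀ k y, pd k (fun y => ∑ i, g i y * g i y) y = ∑ i, 2 * (g i y * pd k (g i) y) := by
    intro k y
    rw [pd_sum (fun i _ => (hg i).mul (hg i))]
    refine Finset.sum_congr rfl fun i _ => ?_
    rw [pd_mul (hg i) (hg i)]
    ring
  have h1 : ∀ k, ∑ i, g i x * pd k (g i) x = 0 := by
    intro k
    have := max_first hG hx' k
    rw [e1, ← Finset.mul_sum] at this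
    linarith
  refine ⟨h1, ?_⟩
  have h2 := max_lap hG hx'
  have e2 : lap (fun y => ∑ i, g i y * g i y) x
      = 2 * ∑ i, g i x * lap (g i) x + 2 * ∑ i, ∑ j, pd j (g i) x ^ 2 := by
    have e3 : ∀ j, pd j (pd j (fun y => ∑ i, g i y * g i y)) x
        = ∑ i, (2 * (g i x * pd j (pd j (g i)) x) + 2 * pd j (g i) x ^ 2) := by
      intro j
      have e4 : pd j (fun y => ∑ i, g i y * g i y)
          = fun y => ∑ i, ((g i y * pd j (g i) y) + (g i y * pd j (g i) y)) := by
        funext y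
        rw [e1]
        exact Finset.sum_congr rfl fun i _ => by ring
      rw [e4, pd_sum (fun i _ => ((hg i).mul ((hg i).pd j)).add ((hg i).mul ((hg i).pd j)))]
      refine Finset.sum_congr rfl fun i _ => ?_
      have e5 : (fun y => g i y * pd j (g i) y + g i y * pd j (g i) y)
          = fun y => (g i y + g i y) * pd j (g i) y := by
        funext y; ring
      rw [e5, pd_mul ((hg i).add (hg i)) ((hg i).pd j)]
      have e6 : pd j (fun y => g i y + g i y) x = 2 * pd j (g i) x := by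
        unfold pd
        have h : HasFDerivAt (fun y => g i y + g i y) _ x :=
          ((hg i).diff x).hasFDerivAt.add ((hg i).diff x).hasFDerivAt
        rw [h.fderiv]
        simp only [add_apply]
        ring
      rw [e6]
      ring
    unfold lap
    simp_rw [e3]
    rw [Finset.sum_comm]
    simp_rw [Finset.sum_add_distrib]
    rw [Finset.mul_sum, Finset.mul_sum]
    congr 1
    · refine Finset.sum_congr rfl fun i _ => ?_
      rw [Finset.mul_sum, Finset.mul_sum]
    · refine Finset.sum_congr rfl fun i _ => ?_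
      rw [Finset.mul_sum]
  rw [e2] at h2
  linarith

end Pool.Agent.Q126.NS
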