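import Pool.Agent.W268.NS.Defs

/-!
Definitions for the one-point criteria for the Navier-Stokes equations.
-/

set_option autoImplicit false

open MeasureTheory Set
open H459R3.NS Pool.Agent.W268.NS

namespace Pool.Agent.Q126.NS

/-- `|v(x)|²` -/
noncomputable def speedSq (v : V → V) (x : V) : ℝ := ∑ i, v x i ^ 2

/-- `|ω(x)|²`, where `ω` is the curl of `v`. -/
noncomputable def vortSq (v : V → V) (x : V) : ℝ := ∑ i, vort v x i ^ 2

/-- `v · ∇p` -/
noncomputable def work (v : V → V) (p : V → ℝ) (x : V) : ℝ := ∑ i, v x i * pd i p x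

/-- `|∇ω|²`, where `ω` is the curl of `v`. -/
noncomputable def vortGradSq (v : V → V) (x : V) : ℝ :=
  ∑ i, ∑ j, pd j (fun y => vort v y i) x ^ 2

/-- The rate of strain `e · (∇v) e = e · S e` of `v` at `x` in the direction `e`. -/
noncomputable def rate (v : V → V) (x e : V) : ℝ := ∑ i, ∑ j, e i * gradM v x i j * e j

/-- The rate-of-strain matrix `S`, `S i j = (∂ᵢ vⱼ + ∂ⱼ vᵢ) / 2`. -/
noncomputable def strain (v : V → V) (x : V) (i j : Fin 3) : ℝ :=
  (gradM v x i j + gradM v x j i) / 2

/-- `|(∇S) e|² = ∑ₖ |(∂ₖ S) e|²` -/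
noncomputable def strainGradSq (v : V → V) (x e : V) : ℝ :=
  ∑ k, ∑ i, (∑ j, pd k (fun y => strain v y i j) x * e j) ^ 2

/-- The second derivative `e · (D²p) e` of the pressure in the direction `e`. -/
noncomputable def hessRate (p : V → ℝ) (x e : V) : ℝ := ∑ i, ∑ j, e i * pd i (pd j p) x * e j

/-- `|ω × e|²` for a unit vector `e`: the square of the part of the vorticity orthogonal to `e`. -/
noncomputable def perpSq (v : V → V) (x e : V) : ℝ := vortSq v x - (∑ i, vort v x i * e i) ^ 2

/-- `e` is a unit vector. -/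
def Unit (e : V) : Prop := ∑ i, e i ^ 2 = 1

/-- `v` has its strongest compression at the point `x` in the direction of the unit vector `e`. -/
def MostCompressed (v : V → V) (x e : V) : Prop :=
  Unit e ∧ ∀ y f : V, Unit f → rate v x e ≤ rate v y f

/-- `v` has its strongest stretching at the point `x` in the direction of the unit vector `e`. -/
def MostStretched (v : V → V) (x e : V) : Prop :=
  Unit e ∧ ∀ y f : V, Unit f → rate v y f ≤ rate v x e

/-- The one-point condition for the speed, with the constant `ρ`: at one point of maximal speed the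
pressure accelerates the fluid at most at the rate `ν |∇v|² / |v|² + ρ`. -/
def CondSpeed (ν ρ : ℝ) (v : V → V) (p : V → ℝ) : Prop :=
  ∃ x, (∀ y, speedSq v y ≤ speedSq v x) ∧ -work v p x ≤ ν * gradSq v x + ρ * speedSq v x

/-- The one-point condition for the vorticity, with the constant `ρ`: at one point of maximal
vorticity the stretching rate is at most `ν |∇ω|² / |ω|² + ρ`. -/
def CondVort (ν ρ : ℝ) (v : V → V) : Prop :=
  ∃ x, (∀ y, vortSq v y ≤ vortSq v x) ∧ stretchRate v x ≤ ν * vortGradSq v x + ρ * vortSq v x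

/-- One-sided condition for the pressure at one point of strongest compression:
`e · (D²p) e ≤ |ω × e|² / 4 + (θ - 1) λ² + 2 ν |(∇S) e|² / (3 λ) + μ`, where `-λ` is the least rate
of strain. -/
def CondC (ν θ μ : ℝ) (v : V → V) (p : V → ℝ) : Prop :=
  ∃ x e, MostCompressed v x e ∧ hessRate p x e ≤ perpSq v x e / 4 + (θ - 1) * rate v x e ^ 2
    + 2 * ν * strainGradSq v x e / (3 * -rate v x e) + μ

/-- One-sided condition for the pressure at one point of strongest stretching:
`|ω × e|² / 4 - e · (D²p) e ≤ (θ + 1) λ² + 2 ν |(∇S) e|² / (3 λ) + μ`, where `λ` is the largest rate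
of strain. -/
def CondS (ν θ μ : ℝ) (v : V → V) (p : V → ℝ) : Prop :=
  ∃ x e, MostStretched v x e ∧ perpSq v x e / 4 - hessRate p x e ≤ (θ + 1) * rate v x e ^ 2
    + 2 * ν * strainGradSq v x e / (3 * rate v x e) + μ

end Pool.Agent.Q126.NS
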