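import Pool.Agent.Q126.NS.Cal

/-!
Time derivatives of the gradient, the vorticity and the rates of strain of a smooth solution.
-/

set_option autoImplicit false

open MeasureTheory Set Filter Topology
open H459R3.NS Pool.Agent.W268.NS H121R3
open scoped ContDiff

namespace Pool.Agent.Q126.NS

theorem pd_sub {f g : V → ℝ} (hf : SP f) (hg : SP g) (j : Fin 3) (x : V) :
    pd j (fun y => f y - g y) x = pd j f x - pd j g x := by
  unfold pd
  have h : HasFDerivAt (fun y => f y - g y) _ x := (hf.diff x).hasFDerivAt.sub (hg.diff x).hasFDerivAt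
  rw [h.fderiv]
  simp

theorem pd_add {f g : V → ℝ} (hf : SP f) (hg : SP g) (j : Fin 3) (x : V) :
    pd j (fun y => f y + g y) x = pd j f x + pd j g x := by
  unfold pd
  have h : HasFDerivAt (fun y => f y + g y) _ x := (hf.diff x).hasFDerivAt.add (hg.diff x).hasFDerivAt
  rw [h.fderiv]
  simp

theorem pd_cmul {f : V → ℝ} (hf : SP f) (c : ℝ) (j : Fin 3) (x : V) :
    pd j (fun y => c * f y) x = c * pd j f x := by
  unfold pd
  have h : HasFDerivAt (fun y => c * f y) _ x := (hf.diff x).hasFDerivAt.const_mul c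
  rw [h.fderiv]
  simp

theorem SP.cmul {f : V → ℝ} (hf : SP f) (c : ℝ) : SP (fun y => c * f y) where
  smooth := contDiff_const.mul hf.smooth
  per := fun i x => by simp only [hf.per i x]

theorem SP.sub {f g : V → ℝ} (hf : SP f) (hg : SP g) : SP (fun x => f x - g x) where
  smooth := hf.smooth.sub hg.smooth
  per := fun i x => by simp only [hf.per i x, hg.per i x]

theorem pd_lap {f : V → ℝ} (hf : SP f) (j : Fin 3) (x : V) :
    pd j (lap f) x = lap (pd j f) x := by
  have : lap f = fun y => ∑ k, pd k (pd k f) y := rfl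
  rw [this, pd_sum fun k _ => (hf.pd k).pd k]
  unfold lap
  refine Finset.sum_congr rfl fun k _ => ?_
  rw [pd_comm (hf.pd k) j k, pd_comm hf j k]

variable {ν T : ℝ} {u : ℝ → V → V} {p : ℝ → V → ℝ}

theorem sp_grad (h : IsSol ν T u p) {t : ℝ} (ht : t ∈ Ico 0 T) (i j : Fin 3) :
    SP (fun y => gradM (u t) y i j) := (h.sp ht j).pd i

theorem smooth_grad (h : IsSol ν T u p) (i j : Fin 3) :
    ContDiffOn ℝ ∞ (fun z : ℝ × V => gradM (u z.1) z.2 i j) (Ico 0 T ×ˢ univ) :=
  contDiffOn_pd (f := fun s y => u s y j) (h.smooth_c j) i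

/-- the velocity -/
theorem vel_dt (h : IsSol ν T u p) {t : ℝ} (ht : t ∈ Ioo 0 T) (x : V) (i : Fin 3) :
    HasDerivAt (fun s => u s x i) (ν * lap (fun y => u t y i) x
      - (∑ k, u t x k * gradM (u t) x k i) - pd i (p t) x) t := by
  have h1 := hasDerivAt_slice (F := fun s y => u s y i)
    (mono_Ioo (f := fun s y => u s y i) (h.smooth_c i) (by norm_cast)) ht x
  rw [← dt_eq (f := fun s y => u s y i) (h.smooth_c i) ht x, h.dt_eq ht] at h1
  exact h1

/-- the velocity gradient `A i j = ∂ᵢ uⱼ` -/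
theorem grad_dt (h : IsSol ν T u p) {t : ℝ} (ht : t ∈ Ioo 0 T) (x : V) (i j : Fin 3) :
    HasDerivAt (fun s => gradM (u s) x i j) (ν * lap (fun y => gradM (u t) y i j) x
      - (∑ k, gradM (u t) x i k * gradM (u t) x k j)
      - (∑ k, u t x k * pd k (fun y => gradM (u t) y i j) x)
      - pd i (pd j (p t)) x) t := by
  have hI : t ∈ Ico 0 T := ⟨ht.1.le, ht.2⟩
  have hG1 : ContDiffOn ℝ 1 (fun z : ℝ × V => pd i (fun y => u z.1 y j) z.2)
      (Ioo 0 T ×ˢ univ) :=
    mono_Ioo (f := fun s x => pd i (fun y => u s y j) x) (smooth_grad h i j) (by norm_cast)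
  have h3 := hasDerivAt_slice (F := fun s x => pd i (fun y => u s y j) x) hG1 ht x
  have h4 := dt_pd (f := fun s y => u s y j) (h.smooth_c j) ht i x
  rw [dt_eq (f := fun s => pd i (fun y => u s y j)) (smooth_grad h i j) ht x] at h4
  rw [h4] at h3
  have e : dt (fun s y => u s y j) t = fun x => (ν * lap (fun y => u t y j) x
      - conv (fun i y => u t y i) j x) - pd j (p t) x := by
    funext x
    exact h.dt_eq ht j x
  have hsp := fun i => h.sp hI i
  have hc : SP (conv (fun i y => u t y i) j) := sp_conv hsp j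
  refine h3.congr_deriv ?_
  rw [e, pd_sub (SP.sub (SP.cmul (hsp j).lap ν) hc) ((h.sp_p hI).pd j),
    pd_sub (SP.cmul (hsp j).lap ν) hc, pd_cmul (hsp j).lap]
  rw [show pd i (lap fun y => u t y j) x = lap (pd i fun y => u t y j) x from pd_lap (hsp j) i x]
  have e2 : pd i (conv (fun i y => u t y i) j) x
      = (∑ k, gradM (u t) x i k * gradM (u t) x k j)
        + ∑ k, u t x k * pd k (fun y => gradM (u t) y i j) x := by
    have : conv (fun i y => u t y i) j = fun x => ∑ k, u t x k * pd k (fun y => u t y j) x := rfl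
    rw [this, pd_sum fun k _ => (hsp k).mul ((hsp j).pd k), ← Finset.sum_add_distrib]
    refine Finset.sum_congr rfl fun k _ => ?_
    rw [pd_mul (hsp k) ((hsp j).pd k), pd_comm (hsp j) i k]
    show _ = pd i (fun y => u t y k) x * pd k (fun y => u t y j) x
      + u t x k * pd k (pd i (fun y => u t y j)) x
    ring
  rw [e2]
  show _ = ν * lap (pd i fun y => u t y j) x - _ - _ - _
  ring

/-- the rate of strain in a fixed direction -/
theorem sp_rate (h : IsSol ν T u p) {t : ℝ} (ht : t ∈ Ico 0 T) (e : V) :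
    SP (fun y => rate (u t) y e) := by
  have : (fun y => rate (u t) y e)
      = fun y => ∑ i, ∑ j, (e i * e j) * gradM (u t) y i j := by
    funext y
    exact Finset.sum_congr rfl fun i _ => Finset.sum_congr rfl fun j _ => by ring
  rw [this]
  exact SP.sum fun i _ => SP.sum fun j _ => SP.cmul (sp_grad h ht i j) _

theorem pd_rate (h : IsSol ν T u p) {t : ℝ} (ht : t ∈ Ico 0 T) (e x : V) (k : Fin 3) :
    pd k (fun y => rate (u t) y e) x
      = ∑ i, ∑ j, (e i * e j) * pd k (fun y => gradM (u t) y i j) x := by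
  have : (fun y => rate (u t) y e)
      = fun y => ∑ i, ∑ j, (e i * e j) * gradM (u t) y i j := by
    funext y
    exact Finset.sum_congr rfl fun i _ => Finset.sum_congr rfl fun j _ => by ring
  rw [this, pd_sum fun i _ => SP.sum fun j _ => SP.cmul (sp_grad h ht i j) _]
  refine Finset.sum_congr rfl fun i _ => ?_
  rw [pd_sum fun j _ => SP.cmul (sp_grad h ht i j) _]
  exact Finset.sum_congr rfl fun j _ => pd_cmul (sp_grad h ht i j) _ _ _

theorem pd2_rate (h : IsSol ν T u p) {t : ℝ} (ht : t ∈ Ico 0 T) (e x : V) (k : Fin 3) :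
    pd k (pd k (fun y => rate (u t) y e)) x
      = ∑ i, ∑ j, (e i * e j) * pd k (pd k (fun y => gradM (u t) y i j)) x := by
  have : pd k (fun y => rate (u t) y e)
      = fun y => ∑ i, ∑ j, (e i * e j) * pd k (fun y => gradM (u t) y i j) y :=
    funext fun y => pd_rate h ht e y k
  rw [this, pd_sum fun i _ => SP.sum fun j _ => SP.cmul ((sp_grad h ht i j).pd k) _]
  refine Finset.sum_congr rfl fun i _ => ?_
  rw [pd_sum fun j _ => SP.cmul ((sp_grad h ht i j).pd k) _]
  exact Finset.sum_congr rfl fun j _ => pd_cmul ((sp_grad h ht i j).pd k) _ _ _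

theorem rate_dt (h : IsSol ν T u p) {t : ℝ} (ht : t ∈ Ioo 0 T) (x e : V) :
    HasDerivAt (fun s => rate (u s) x e) (ν * lap (fun y => rate (u t) y e) x
      - (∑ i, ∑ j, e i * (∑ k, gradM (u t) x i k * gradM (u t) x k j) * e j)
      - (∑ k, u t x k * pd k (fun y => rate (u t) y e) x) - hessRate (p t) x e) t := by
  have hI : t ∈ Ico 0 T := ⟨ht.1.le, ht.2⟩
  have h1 : HasDerivAt (fun s => ∑ i, ∑ j, e i * gradM (u s) x i j * e j) _ t :=
    HasDerivAt.fun_sum fun i _ => HasDerivAt.fun_sum fun j _ =>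
      ((grad_dt h ht x i j).const_mul (e i)).mul_const (e j)
  refine h1.congr_deriv ?_
  unfold hessRate lap
  simp_rw [pd2_rate h hI, pd_rate h hI]
  simp only [Fin.sum_univ_three]
  ring

/-- the vorticity components as differences -/
theorem vort_zero (v : V → V) (x : V) : vort v x 0 = gradM v x 1 2 - gradM v x 2 1 := rfl
theorem vort_one (v : V → V) (x : V) : vort v x 1 = gradM v x 2 0 - gradM v x 0 2 := rfl
theorem vort_two (v : V → V) (x : V) : vort v x 2 = gradM v x 0 1 - gradM v x 1 0 := rfl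

theorem sp_vort (h : IsSol ν T u p) {t : ℝ} (ht : t ∈ Ico 0 T) (i : Fin 3) :
    SP (fun y => vort (u t) y i) := by
  fin_cases i
  · exact SP.sub (sp_grad h ht 1 2) (sp_grad h ht 2 1)
  · exact SP.sub (sp_grad h ht 2 0) (sp_grad h ht 0 2)
  · exact SP.sub (sp_grad h ht 0 1) (sp_grad h ht 1 0)

theorem smooth_vort (h : IsSol ν T u p) (i : Fin 3) :
    ContDiffOn ℝ ∞ (fun z : ℝ × V => vort (u z.1) z.2 i) (Ico 0 T ×ˢ univ) := by
  fin_cases i
  · exact (smooth_grad h 1 2).sub (smooth_grad h 2 1)
  · exact (smooth_grad h 2 0).sub (smooth_grad h 0 2)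
  · exact (smooth_grad h 0 1).sub (smooth_grad h 1 0)

theorem trace_zero (h : IsSol ν T u p) {t : ℝ} (ht : t ∈ Ico 0 T) (x : V) :
    gradM (u t) x 0 0 + gradM (u t) x 1 1 + gradM (u t) x 2 2 = 0 := by
  have := h.divfree t ht x
  rw [Fin.sum_univ_three] at this
  exact this

/-- the vorticity equation -/
theorem vort_dt (h : IsSol ν T u p) {t : ℝ} (ht : t ∈ Ioo 0 T) (x : V) (i : Fin 3) :
    HasDerivAt (fun s => vort (u s) x i) (ν * lap (fun y => vort (u t) y i) x
      - (∑ k, u t x k * pd k (fun y => vort (u t) y i) x)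
      + ∑ k, vort (u t) x k * gradM (u t) x k i) t := by
  have hI : t ∈ Ico 0 T := ⟨ht.1.le, ht.2⟩
  have htr := trace_zero h hI x
  have key : ∀ a b c d : Fin 3, ∀ w : (s : ℝ) → V → ℝ,
      (∀ s y, w s y = gradM (u s) y a b - gradM (u s) y c d) → pd a (pd b (p t)) x = pd c (pd d (p t)) x →
      HasDerivAt (fun s => w s x) (ν * lap (fun y => w t y) x
        - (∑ k, u t x k * pd k (fun y => w t y) x)
        - (∑ k, gradM (u t) x a k * gradM (u t) x k b)
        + ∑ k, gradM (u t) x c k * gradM (u t) x k d) t := by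
    intro a b c d w hw hp
    have e0 : w = fun s y => gradM (u s) y a b - gradM (u s) y c d :=
      funext fun s => funext fun y => hw s y
    subst e0
    have h1 := (grad_dt h ht x a b).sub (grad_dt h ht x c d)
    have e1 : ∀ k y, pd k (fun y => gradM (u t) y a b - gradM (u t) y c d) y
        = pd k (fun y => gradM (u t) y a b) y - pd k (fun y => gradM (u t) y c d) y :=
      fun k y => pd_sub (sp_grad h hI a b) (sp_grad h hI c d) k y
    have e2 : lap (fun y => gradM (u t) y a b - gradM (u t) y c d) x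
        = lap (fun y => gradM (u t) y a b) x - lap (fun y => gradM (u t) y c d) x := by
      unfold lap
      rw [← Finset.sum_sub_distrib]
      refine Finset.sum_congr rfl fun k _ => ?_
      rw [show pd k (fun y => gradM (u t) y a b - gradM (u t) y c d)
        = fun y => pd k (fun y => gradM (u t) y a b) y - pd k (fun y => gradM (u t) y c d) y from
        funext (e1 k)]
      exact pd_sub ((sp_grad h hI a b).pd k) ((sp_grad h hI c d).pd k) k x
    refine h1.congr_deriv ?_
    simp only [e2, e1]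
    rw [hp]
    simp only [mul_sub, Finset.sum_sub_distrib]
    ring
  have hpc : ∀ a b, pd a (pd b (p t)) x = pd b (pd a (p t)) x := fun a b => by
    rw [pd_comm (h.sp_p hI) a b]
  fin_cases i
  · refine (key 1 2 2 1 (fun s y => vort (u s) y 0) (fun s y => rfl) (hpc 1 2)).congr_deriv ?_
    simp only [Fin.sum_univ_three, Fin.zero_eta, vort_zero, vort_one, vort_two]
    linear_combination (gradM (u t) x 1 2 - gradM (u t) x 2 1) * (-htr)
  · refine (key 2 0 0 2 (fun s y => vort (u s) y 1) (fun s y => rfl) (hpc 2 0)).congr_deriv ?_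
    simp only [Fin.sum_univ_three, Fin.mk_one, vort_zero, vort_one, vort_two]
    linear_combination (gradM (u t) x 2 0 - gradM (u t) x 0 2) * (-htr)
  · refine (key 0 1 1 0 (fun s y => vort (u s) y 2) (fun s y => rfl) (hpc 0 1)).congr_deriv ?_
    simp only [Fin.sum_univ_three, Fin.reduceFinMk, vort_zero, vort_one, vort_two]
    linear_combination (gradM (u t) x 0 1 - gradM (u t) x 1 0) * (-htr)

end Pool.Agent.Q126.NS
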