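import Pool.Agent.Q126.NS.Evo
import Pool.Agent.TH340.RC.Ext

/-!
Time derivatives at extreme points.
-/

set_option autoImplicit false

open MeasureTheory Set Filter Topology
open H459R3.NS Pool.Agent.W268.NS H121R3
open scoped ContDiff

namespace Pool.Agent.Q126.NS

variable {ν T : ℝ} {u : ℝ → V → V} {p : ℝ → V → ℝ}

/-- the speed -/
theorem speed_ext (hν : 0 ≤ ν) (h : IsSol ν T u p) {t : ℝ} (ht : t ∈ Ioo 0 T) {x : V}
    (hx : ∀ y, speedSq (u t) y ≤ speedSq (u t) x) :
    ∃ D, HasDerivAt (fun s => speedSq (u s) x) D t ∧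
      D ≤ 2 * (-work (u t) (p t) x - ν * gradSq (u t) x) := by
  have hI : t ∈ Ico 0 T := ⟨ht.1.le, ht.2⟩
  have h1 : HasDerivAt (fun s => ∑ i, u s x i ^ 2) _ t :=
    HasDerivAt.fun_sum fun i _ => (vel_dt h ht x i).pow 2
  refine ⟨_, h1, ?_⟩
  obtain ⟨k1, k2⟩ := max_sq (g := fun i y => u t y i) (fun i => h.sp hI i) hx
  have e1 : gradSq (u t) x = ∑ i, ∑ j, pd j (fun y => u t y i) x ^ 2 := by
    unfold gradSq
    rw [Finset.sum_comm]
    rfl
  rw [e1]
  have k3 := mul_le_mul_of_nonneg_left k2 hν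
  have e2 : ∑ i, ((2 : ℕ) : ℝ) * u t x i ^ (2 - 1) * (ν * lap (fun y => u t y i) x
      - (∑ k, u t x k * gradM (u t) x k i) - pd i (p t) x)
      = 2 * (ν * (∑ i, u t x i * lap (fun y => u t y i) x))
        - 2 * (∑ k, u t x k * ∑ i, u t x i * gradM (u t) x k i) - 2 * work (u t) (p t) x := by
    unfold work
    simp only [Fin.sum_univ_three]
    ring
  have e3 : ∑ k, u t x k * ∑ i, u t x i * gradM (u t) x k i = 0 := by
    refine Finset.sum_eq_zero fun k _ => ?_
    have := k1 k
    have e4 : ∑ i, u t x i * gradM (u t) x k i = ∑ i, u t x i * pd k (fun y => u t y i) x := rfl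
    rw [e4, this, mul_zero]
  rw [e2, e3]
  linarith

/-- the vorticity -/
theorem vort_ext (hν : 0 ≤ ν) (h : IsSol ν T u p) {t : ℝ} (ht : t ∈ Ioo 0 T) {x : V}
    (hx : ∀ y, vortSq (u t) y ≤ vortSq (u t) x) :
    ∃ D, HasDerivAt (fun s => vortSq (u s) x) D t ∧
      D ≤ 2 * (stretchRate (u t) x - ν * vortGradSq (u t) x) := by
  have hI : t ∈ Ico 0 T := ⟨ht.1.le, ht.2⟩
  have h1 : HasDerivAt (fun s => ∑ i, vort (u s) x i ^ 2) _ t :=
    HasDerivAt.fun_sum fun i _ => (vort_dt h ht x i).pow 2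
  refine ⟨_, h1, ?_⟩
  obtain ⟨k1, k2⟩ := max_sq (g := fun i y => vort (u t) y i) (fun i => sp_vort h hI i) hx
  have k3 := mul_le_mul_of_nonneg_left k2 hν
  have e2 : ∑ i, ((2 : ℕ) : ℝ) * vort (u t) x i ^ (2 - 1) * (ν * lap (fun y => vort (u t) y i) x
      - (∑ k, u t x k * pd k (fun y => vort (u t) y i) x)
      + ∑ k, vort (u t) x k * gradM (u t) x k i)
      = 2 * (ν * (∑ i, vort (u t) x i * lap (fun y => vort (u t) y i) x))
        - 2 * (∑ k, u t x k * ∑ i, vort (u t) x i * pd k (fun y => vort (u t) y i) x)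
        + 2 * stretchRate (u t) x := by
    unfold stretchRate
    simp only [Fin.sum_univ_three]
    ring
  have e3 : ∑ k, u t x k * ∑ i, vort (u t) x i * pd k (fun y => vort (u t) y i) x = 0 := by
    refine Finset.sum_eq_zero fun k _ => ?_
    rw [k1 k, mul_zero]
  rw [e2, e3]
  unfold vortGradSq
  linarith

/-- `(x, e)` is extreme for `σ` times the rate of strain. -/
def Extreme (σ : ℝ) (v : V → V) (x e : V) : Prop :=
  Unit e ∧ ∀ y f : V, Unit f → σ * rate v y f ≤ σ * rate v x e

theorem rate_eq_dot (v : V → V) (x e : V) : rate v x e = e ⬝ᵥ (gradM v x).mulVec e := by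
  unfold rate
  simp only [dotProduct, Matrix.mulVec, Finset.mul_sum]
  refine Finset.sum_congr rfl fun i _ => Finset.sum_congr rfl fun j _ => ?_
  ring

theorem unit_iff (e : V) : Unit e ↔ e ⬝ᵥ e = 1 := by
  unfold Unit
  simp only [dotProduct, sq]

/-- homogeneous form of the extremality -/
theorem Extreme.hom {σ : ℝ} {v : V → V} {x e : V} (h : Extreme σ v x e) (y f : V) :
    σ * rate v y f ≤ σ * rate v x e * ∑ i, f i ^ 2 := by
  have h1 := Pool.Agent.TH340.RC.ext_hom (A := gradM v y) (σ := σ) (l := rate v x e)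
    (fun f hf => by rw [← rate_eq_dot]; exact h.2 y f ((unit_iff f).2 hf)) f
  rw [← rate_eq_dot] at h1
  have h2 : f ⬝ᵥ f = ∑ i, f i ^ 2 := by simp only [dotProduct, sq]
  rwa [h2] at h1

theorem Extreme.low {σ : ℝ} {v : V → V} {x e : V} (h : Extreme σ v x e) (y f : V)
    (htr : gradM v y 0 0 + gradM v y 1 1 + gradM v y 2 2 = 0) :
    -(σ * rate v y f) ≤ 2 * (σ * rate v x e) * ∑ i, f i ^ 2 := by
  have a0 := h.hom y ![0, -f 2, f 1]
  have a1 := h.hom y ![f 2, 0, -f 0]
  have a2 := h.hom y ![-f 1, f 0, 0]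
  unfold rate at a0 a1 a2 ⊢
  simp only [Fin.sum_univ_three, Matrix.cons_val_zero, Matrix.cons_val_one,
    Matrix.cons_val] at a0 a1 a2 ⊢
  have key : σ * ((f 0 * f 0 + f 1 * f 1 + f 2 * f 2)
      * (gradM v y 0 0 + gradM v y 1 1 + gradM v y 2 2)) = 0 := by
    rw [htr, mul_zero, mul_zero]
  nlinarith

theorem Extreme.nonneg {σ : ℝ} {v : V → V} {x e : V} (h : Extreme σ v x e)
    (htr : gradM v x 0 0 + gradM v x 1 1 + gradM v x 2 2 = 0) : 0 ≤ σ * rate v x e := by
  have h1 := h.low x e htr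
  have h2 : ∑ i, e i ^ 2 = 1 := h.1
  rw [h2] at h1
  linarith

/-- the square of the gradient in an extreme direction -/
theorem Extreme.sq {σ : ℝ} (hσ : σ ≠ 0) {v : V → V} {x e : V} (h : Extreme σ v x e) :
    ∑ i, ∑ j, e i * (∑ k, gradM v x i k * gradM v x k j) * e j
      = rate v x e ^ 2 - perpSq v x e / 4 := by
  have h1 := Pool.Agent.TH340.RC.eigen hσ (A := gradM v x) ((unit_iff e).1 h.1)
    (fun f hf => by rw [← rate_eq_dot, ← rate_eq_dot]; exact h.2 x f ((unit_iff f).2 hf))
  rw [← rate_eq_dot] at h1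
  have hu : e 0 ^ 2 + e 1 ^ 2 + e 2 ^ 2 = 1 := by
    have : ∑ i, e i ^ 2 = 1 := h.1
    rwa [Fin.sum_univ_three] at this
  set l := rate v x e with hl
  have g0 := congrFun h1 0
  have g1 := congrFun h1 1
  have g2 := congrFun h1 2
  simp only [Pi.add_apply, Matrix.mulVec, dotProduct, Fin.sum_univ_three, Matrix.transpose_apply,
    Pi.smul_apply, smul_eq_mul] at g0 g1 g2
  have e1 : ∑ i, ∑ j, e i * (∑ k, gradM v x i k * gradM v x k j) * e j
      = ∑ k, (∑ i, e i * gradM v x i k) * (∑ j, gradM v x k j * e j) := by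
    simp only [Fin.sum_univ_three]
    ring
  rw [e1]
  have e2 : perpSq v x e
      = ∑ k, ((∑ i, e i * gradM v x i k) - (∑ j, gradM v x k j * e j)) ^ 2 := by
    unfold perpSq vortSq
    simp only [Fin.sum_univ_three, vort_zero, vort_one, vort_two]
    linear_combination -((gradM v x 1 2 - gradM v x 2 1) ^ 2 + (gradM v x 2 0 - gradM v x 0 2) ^ 2
      + (gradM v x 0 1 - gradM v x 1 0) ^ 2) * (hu)
  have e3 : ∀ k, (∑ i, e i * gradM v x i k) + (∑ j, gradM v x k j * e j) = 2 * l * e k := by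
    intro k
    fin_cases k
    · simp only [Fin.sum_univ_three, Fin.zero_eta]; linarith
    · simp only [Fin.sum_univ_three, Fin.mk_one]; linarith
    · simp only [Fin.sum_univ_three, Fin.reduceFinMk]; linarith
  rw [e2]
  have e4 : ∀ k, (∑ i, e i * gradM v x i k) * (∑ j, gradM v x k j * e j)
      = (2 * l * e k) ^ 2 / 4
        - ((∑ i, e i * gradM v x i k) - (∑ j, gradM v x k j * e j)) ^ 2 / 4 := by
    intro k
    rw [← e3 k]
    ring
  rw [Finset.sum_congr rfl fun k _ => e4 k, Finset.sum_sub_distrib, ← Finset.sum_div,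
    ← Finset.sum_div]
  have e5 : ∑ k, (2 * l * e k) ^ 2 = 4 * l ^ 2 := by
    simp only [Fin.sum_univ_three]
    linear_combination 4 * l ^ 2 * hu
  rw [e5]
  ring

theorem aff_D2 (a w : ℝ) : D2 (fun τ : ℝ => a + τ * w) w 0 := by
  refine ⟨fun _ => w, Eventually.of_forall fun τ => ?_, rfl, hasDerivAt_const _ _⟩
  simpa using ((hasDerivAt_id τ).mul_const w).const_add a

/-- the viscous term at an extreme point -/
theorem gain {σ : ℝ} (hσ : σ ^ 2 = 1) (h : IsSol ν T u p) {t : ℝ} (ht : t ∈ Ico 0 T) {x e : V}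
    (hx : Extreme σ (u t) x e) :
    σ * lap (fun y => rate (u t) y e) x
      ≤ -(2 * strainGradSq (u t) x e / (3 * (σ * rate (u t) x e))) := by
  set Λ := σ * rate (u t) x e with hΛ
  have htr := fun y => trace_zero h ht y
  have hΛ0 : 0 ≤ Λ := hx.nonneg (htr x)
  set c : ℝ := 1 / (3 * Λ) with hc
  have hc0 : 0 ≤ c := by positivity
  have key : ∀ k, σ * pd k (pd k (fun y => rate (u t) y e)) x
      ≤ -(2 / (3 * Λ)) * ∑ i, (∑ j, pd k (fun y => strain (u t) y i j) x * e j) ^ 2 := by
    intro k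
    set q : V := fun i => ∑ j, pd k (fun y => strain (u t) y i j) x * e j with hq
    have hS : ∀ i j, pd k (fun y => strain (u t) y i j) x
        = (pd k (fun y => gradM (u t) y i j) x + pd k (fun y => gradM (u t) y j i) x) / 2 := by
      intro i j
      have e1 : (fun y => strain (u t) y i j)
          = fun y => (1 / 2 : ℝ) * (gradM (u t) y i j + gradM (u t) y j i) := by
        funext y; unfold strain; ring
      rw [e1, pd_cmul ((sp_grad h ht i j).add (sp_grad h ht j i)),
        pd_add (sp_grad h ht i j) (sp_grad h ht j i)]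
      ring
    set w : V := fun i => σ * c * q i with hw
    have hD : D2 (fun τ : ℝ => (∑ i, ∑ j, ((e i + τ * w i) * (e j + τ * w j))
          * gradM (u t) (x + τ • (Pi.single k 1 : V)) i j))
        (∑ i, ∑ j, ((w i * (e j + 0 * w j) + (e i + 0 * w i) * w j)
            * gradM (u t) (x + (0 : ℝ) • (Pi.single k 1 : V)) i j
          + ((e i + 0 * w i) * (e j + 0 * w j)) * pd k (fun y => gradM (u t) y i j) x))
        (∑ i, ∑ j, ((0 * (e j + 0 * w j) + 2 * (w i * w j) + (e i + 0 * w i) * 0)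
            * gradM (u t) (x + (0 : ℝ) • (Pi.single k 1 : V)) i j
          + 2 * ((w i * (e j + 0 * w j) + (e i + 0 * w i) * w j)
            * pd k (fun y => gradM (u t) y i j) x)
          + ((e i + 0 * w i) * (e j + 0 * w j)) * pd k (pd k (fun y => gradM (u t) y i j)) x)) :=
      D2.sum _ fun i _ => D2.sum _ fun j _ =>
        D2.mul (D2.mul (aff_D2 (e i) (w i)) (aff_D2 (e j) (w j)))
          (line_D2 (sp_grad h ht i j) x k)
    have hN : D2 (fun τ : ℝ => ∑ i, (e i + τ * w i) * (e i + τ * w i))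
        (∑ i, (w i * (e i + 0 * w i) + (e i + 0 * w i) * w i))
        (∑ i, (0 * (e i + 0 * w i) + 2 * (w i * w i) + (e i + 0 * w i) * 0)) :=
      D2.sum _ fun i _ => D2.mul (aff_D2 (e i) (w i)) (aff_D2 (e i) (w i))
    have hφ := (hD.const_mul σ).add (hN.const_mul (-Λ))
    have hmax := hφ.nonpos (Eventually.of_forall fun τ => by
      have h1 := hx.hom (x + τ • (Pi.single k 1 : V)) (fun i => e i + τ * w i)
      have e1 : rate (u t) (x + τ • (Pi.single k 1 : V)) (fun i => e i + τ * w i)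
          = ∑ i, ∑ j, ((e i + τ * w i) * (e j + τ * w j))
            * gradM (u t) (x + τ • (Pi.single k 1 : V)) i j := by
        unfold rate
        exact Finset.sum_congr rfl fun i _ => Finset.sum_congr rfl fun j _ => by ring
      have e2 : ∑ i, (e i + τ * w i) * (e i + τ * w i) = ∑ i, (e i + τ * w i) ^ 2 :=
        Finset.sum_congr rfl fun i _ => by ring
      have e3 : σ * (∑ i, ∑ j, ((e i + 0 * w i) * (e j + 0 * w j))
            * gradM (u t) (x + (0 : ℝ) • (Pi.single k 1 : V)) i j)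
          + -Λ * ∑ i, (e i + 0 * w i) * (e i + 0 * w i) = 0 := by
        have hu : ∑ i, e i ^ 2 = 1 := hx.1
        simp only [zero_mul, add_zero, zero_smul]
        have e4 : ∑ i, e i * e i = 1 := by
          rw [← hu]; exact Finset.sum_congr rfl fun i _ => by ring
        have e5 : ∑ i, ∑ j, (e i * e j) * gradM (u t) x i j = rate (u t) x e := by
          unfold rate
          exact Finset.sum_congr rfl fun i _ => Finset.sum_congr rfl fun j _ => by ring
        rw [e4, e5, hΛ]
        ring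
      beta_reduce
      rw [e3, e2, ← e1]
      linarith)
    have hR2 := pd2_rate h ht e x k
    have hlow := hx.low x q (htr x)
    rw [← hΛ] at hlow
    have hqq : ∑ i, (∑ j, pd k (fun y => strain (u t) y i j) x * e j) ^ 2 = ∑ i, q i ^ 2 := rfl
    rw [hqq]
    set N := ∑ i, q i ^ 2 with hNdef
    have hN0 : 0 ≤ N := Finset.sum_nonneg fun i _ => sq_nonneg _
    -- the terms
    have t1 : ∑ i, ∑ j, ((w i * e j + e i * w j) * pd k (fun y => gradM (u t) y i j) x)
        = 2 * (σ * c * N) := by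
      have hqi : ∀ i, q i = ∑ j, (pd k (fun y => gradM (u t) y i j) x
          + pd k (fun y => gradM (u t) y j i) x) / 2 * e j := by
        intro i
        simp only [hq, hS]
      have e1 : ∑ i, ∑ j, ((w i * e j + e i * w j) * pd k (fun y => gradM (u t) y i j) x)
          = 2 * ∑ i, w i * q i := by
        simp_rw [hqi]
        simp only [Fin.sum_univ_three]
        ring
      rw [e1]
      have e2 : ∑ i, w i * q i = σ * c * N := by
        rw [hNdef, Finset.mul_sum]
        exact Finset.sum_congr rfl fun i _ => by simp only [hw]; ring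
      rw [e2]
    have t2 : ∑ i, ∑ j, (w i * w j) * gradM (u t) x i j = (σ * c) ^ 2 * rate (u t) x q := by
      unfold rate
      rw [Finset.mul_sum]
      refine Finset.sum_congr rfl fun i _ => ?_
      rw [Finset.mul_sum]
      exact Finset.sum_congr rfl fun j _ => by simp only [hw]; ring
    have t3 : ∑ i, w i * w i = (σ * c) ^ 2 * N := by
      rw [hNdef, Finset.mul_sum]
      exact Finset.sum_congr rfl fun i _ => by simp only [hw]; ring
    have t4 : ∑ i, ∑ j, ((0 * (e j + 0 * w j) + 2 * (w i * w j) + (e i + 0 * w i) * 0)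
            * gradM (u t) (x + (0 : ℝ) • (Pi.single k 1 : V)) i j
          + 2 * ((w i * (e j + 0 * w j) + (e i + 0 * w i) * w j)
            * pd k (fun y => gradM (u t) y i j) x)
          + ((e i + 0 * w i) * (e j + 0 * w j)) * pd k (pd k (fun y => gradM (u t) y i j)) x)
        = 2 * (∑ i, ∑ j, (w i * w j) * gradM (u t) x i j)
          + 2 * (∑ i, ∑ j, ((w i * e j + e i * w j) * pd k (fun y => gradM (u t) y i j) x))
          + ∑ i, ∑ j, (e i * e j) * pd k (pd k (fun y => gradM (u t) y i j)) x := by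
      simp only [zero_mul, add_zero, zero_smul, mul_zero, zero_add]
      simp only [Finset.sum_add_distrib, Finset.mul_sum]
      congr 2
      refine Finset.sum_congr rfl fun i _ => Finset.sum_congr rfl fun j _ => by ring
    have t5 : ∑ i, (0 * (e i + 0 * w i) + 2 * (w i * w i) + (e i + 0 * w i) * 0)
        = 2 * ∑ i, w i * w i := by
      simp only [zero_mul, add_zero, mul_zero, zero_add, Finset.mul_sum]
    rw [t4, t5, t1, t2, t3, ← hR2] at hmax
    -- `Λ c² ≤ c / 3`
    have hcΛ : Λ * c ^ 2 = c / 3 := by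
      rcases hΛ0.eq_or_lt with h0 | h0
      · rw [← h0] at hc
        rw [← h0, hc]; simp
      · rw [hc]; field_simp
    have h2c : 2 / (3 * Λ) = 2 * c := by rw [hc]; ring
    rw [h2c]
    have m1 : σ * (2 * ((σ * c) ^ 2 * rate (u t) x q))
        = 2 * (c ^ 2 * (σ * rate (u t) x q)) := by
      have : σ * (2 * ((σ * c) ^ 2 * rate (u t) x q))
          = 2 * (σ ^ 2 * (c ^ 2 * (σ * rate (u t) x q))) := by ring
      rw [this, hσ, one_mul]
    have m2 : σ * (2 * (2 * (σ * c * N))) = 4 * (c * N) := by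
      have : σ * (2 * (2 * (σ * c * N))) = 4 * (σ ^ 2 * (c * N)) := by ring
      rw [this, hσ, one_mul]
    have m3 : -Λ * (2 * ((σ * c) ^ 2 * N)) = -2 * (Λ * c ^ 2) * N := by
      have : -Λ * (2 * ((σ * c) ^ 2 * N)) = -2 * (Λ * c ^ 2) * N * σ ^ 2 := by ring
      rw [this, hσ, mul_one]
    have m4 : -(c ^ 2 * (σ * rate (u t) x q)) ≤ 2 * (Λ * c ^ 2) * N := by
      have := mul_le_mul_of_nonneg_left hlow (sq_nonneg c)
      nlinarith
    rw [hcΛ] at m3 m4
    have hfin : σ * (2 * ((σ * c) ^ 2 * rate (u t) x q) + 2 * (2 * (σ * c * N))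
        + pd k (pd k fun y => rate (u t) y e) x) + -Λ * (2 * ((σ * c) ^ 2 * N)) ≤ 0 := hmax
    rw [mul_add, mul_add, m1, m2, m3] at hfin
    nlinarith
  have h1 : σ * lap (fun y => rate (u t) y e) x
      = ∑ k, σ * pd k (pd k (fun y => rate (u t) y e)) x := by
    unfold lap
    rw [Finset.mul_sum]
  rw [h1]
  refine (Finset.sum_le_sum fun k _ => key k).trans (le_of_eq ?_)
  rw [← Finset.mul_sum]
  unfold strainGradSq
  ring

/-- the rate of strain -/
theorem rate_ext {σ : ℝ} (hσ : σ ^ 2 = 1) (hν : 0 ≤ ν) (h : IsSol ν T u p) {t : ℝ}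
    (ht : t ∈ Ioo 0 T) {x e : V} (hx : Extreme σ (u t) x e) :
    ∃ D, HasDerivAt (fun s => σ * rate (u s) x e) D t ∧
      D ≤ -(2 * ν * strainGradSq (u t) x e / (3 * (σ * rate (u t) x e)))
        - σ * (rate (u t) x e ^ 2 - perpSq (u t) x e / 4) - σ * hessRate (p t) x e := by
  have hI : t ∈ Ico 0 T := ⟨ht.1.le, ht.2⟩
  have hσ0 : σ ≠ 0 := by rintro rfl; norm_num at hσ
  refine ⟨_, (rate_dt h ht x e).const_mul σ, ?_⟩
  rw [hx.sq hσ0]
  have hmax : ∀ y, (fun y => σ * rate (u t) y e) y ≤ (fun y => σ * rate (u t) y e) x :=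
    fun y => hx.2 y e hx.1
  have h1 : ∀ k, pd k (fun y => rate (u t) y e) x = 0 := by
    intro k
    have := max_first (SP.cmul (sp_rate h hI e) σ) hmax k
    rw [pd_cmul (sp_rate h hI e)] at this
    exact (mul_eq_zero.1 this).resolve_left hσ0
  have h2 : ∑ k, u t x k * pd k (fun y => rate (u t) y e) x = 0 :=
    Finset.sum_eq_zero fun k _ => by rw [h1 k, mul_zero]
  rw [h2]
  have h3 := mul_le_mul_of_nonneg_left (gain hσ h hI hx) hν
  have e1 : ν * -(2 * strainGradSq (u t) x e / (3 * (σ * rate (u t) x e)))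
      = -(2 * ν * strainGradSq (u t) x e / (3 * (σ * rate (u t) x e))) := by ring
  rw [e1] at h3
  linarith

end Pool.Agent.Q126.NS
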