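import Pool.Agent.W786.Max1

/-!
Suprema of families of functions of time, and differential inequalities for them.
-/

set_option autoImplicit false

open MeasureTheory Set Filter Topology

namespace Pool.Agent.Q126.NS

section

variable {Q : Type*} [Nonempty Q] {F : ℝ → Q → ℝ} {a b B C : ℝ}

theorem sup_lip (hB : ∀ t ∈ Icc a b, ∀ q, F t q ≤ B)
    (hL : ∀ r ∈ Icc a b, ∀ t ∈ Icc a b, ∀ q, F t q - F r q ≤ C * |t - r|) {r t : ℝ}
    (hr : r ∈ Icc a b) (ht : t ∈ Icc a b) :
    (⨆ q, F t q) - (⨆ q, F r q) ≤ C * |t - r| := by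
  rw [sub_le_iff_le_add]
  refine ciSup_le fun q => ?_
  have h1 := hL r hr t ht q
  have h2 : F r q ≤ ⨆ q, F r q := le_ciSup (f := F r) ⟨B, by rintro _ ⟨q, rfl⟩; exact hB r hr q⟩ q
  linarith

theorem sup_eq {t : ℝ} {q : Q} (hq : ∀ q', F t q' ≤ F t q) : (⨆ q, F t q) = F t q :=
  le_antisymm (ciSup_le hq) (le_ciSup (f := F t) ⟨F t q, by rintro _ ⟨q', rfl⟩; exact hq q'⟩ q)

theorem sup_deriv (hB : ∀ t ∈ Icc a b, ∀ q, F t q ≤ B) {t : ℝ} (ht : t ∈ Ioo a b) {q : Q}
    (hq : ∀ q', F t q' ≤ F t q) {F' d : ℝ} (hF : HasDerivAt (fun s => F s q) F' t)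
    (hd : HasDerivAt (fun s => ⨆ q, F s q) d t) : d = F' := by
  have h1 : HasDerivAt (fun s => (⨆ q, F s q) - F s q) (d - F') t := hd.sub hF
  have h2 : IsLocalMin (fun s => (⨆ q, F s q) - F s q) t := by
    filter_upwards [Icc_mem_nhds ht.1 ht.2] with s hs
    rw [sup_eq hq, sub_self]
    have : F s q ≤ ⨆ q, F s q :=
      le_ciSup (f := F s) ⟨B, by rintro _ ⟨q, rfl⟩; exact hB s hs q⟩ q
    linarith
  have := h2.hasDerivAt_eq_zero h1
  linarith

end

/-- Gronwall's lemma. -/
theorem gronwall {E ρ : ℝ → ℝ} {s b k C : ℝ} (hsb : s ≤ b) (hk : 0 ≤ k) (hC : 0 ≤ C)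
    (hE0 : ∀ t ∈ Icc s b, 0 ≤ E t)
    (hinc : ∀ r ∈ Icc s b, ∀ t ∈ Icc s b, E t - E r ≤ C * |t - r|)
    (hρ : IntervalIntegrable ρ volume s b) (hρ0 : ∀ t ∈ Ioo s b, 0 ≤ ρ t)
    (hd : ∀ᵐ t, t ∈ Ioo s b → ∀ d, HasDerivAt E d t → d ≤ k * (ρ t * E t)) :
    E b + 1 ≤ (E s + 1) * Real.exp (k * ∫ t in s..b, ρ t) := by
  set L : ℝ → ℝ := fun t => Real.log (E t + 1) with hL
  have hsI : s ∈ Icc s b := left_mem_Icc.2 hsb
  have hbI : b ∈ Icc s b := right_mem_Icc.2 hsb
  have h1 : ∀ r ∈ Icc s b, ∀ t ∈ Icc s b, r ≤ t → L t - L r ≤ C * (t - r) := by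
    intro r hr t ht hrt
    have e1 := hE0 r hr
    have e2 := hE0 t ht
    have e3 := hinc r hr t ht
    rw [abs_of_nonneg (by linarith)] at e3
    have e4 : 0 ≤ C * (t - r) := mul_nonneg hC (by linarith)
    simp only [hL]
    rw [← Real.log_div (by linarith) (by linarith)]
    refine (Real.log_le_sub_one_of_pos (by positivity)).trans ?_
    rw [div_sub_one (by linarith), div_le_iff₀ (by linarith)]
    nlinarith
  have h2 : ∀ᵐ t, t ∈ Ioo s b → ∀ d, HasDerivAt L d t → d ≤ k * ρ t := by
    filter_upwards [hd] with t k1 ht d hdL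
    have hρt := hρ0 t ht
    have hev : ∀ᶠ r in 𝓝 t, r ∈ Icc s b := Icc_mem_nhds ht.1 ht.2
    have h3 : HasDerivAt E (Real.exp (L t) * d) t := by
      have := (hdL.exp).sub_const 1
      refine this.congr_of_eventuallyEq ?_
      filter_upwards [hev] with r hr
      have := hE0 r hr
      simp only [hL]
      rw [Real.exp_log (by linarith)]
      ring
    have h4 := k1 ht _ h3
    have e := hE0 t (Ioo_subset_Icc_self ht)
    simp only [hL] at h4
    rw [Real.exp_log (by linarith)] at h4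
    have h5 : (E t + 1) * d ≤ (E t + 1) * (k * ρ t) := by
      refine h4.trans ?_
      have : 0 ≤ k * ρ t := mul_nonneg hk hρt
      nlinarith
    exact le_of_mul_le_mul_left h5 (by linarith)
  have h3 := Pool.Agent.W786.Max.growth_of_ae hsb h1 (hρ.const_mul k) h2
  rw [intervalIntegral.integral_const_mul] at h3
  have e1 := hE0 s hsI
  have e2 := hE0 b hbI
  simp only [hL] at h3
  calc E b + 1 = Real.exp (Real.log (E b + 1)) := (Real.exp_log (by linarith)).symm
    _ ≤ Real.exp (Real.log (E s + 1) + k * ∫ t in s..b, ρ t) := Real.exp_le_exp.2 (by linarith)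
    _ = _ := by rw [Real.exp_add, Real.exp_log (by linarith)]

/-- Comparison with a solution of a Riccati inequality. -/
theorem riccati {E R R' μ : ℝ → ℝ} {θ s b C Cm : ℝ} (hθ : 0 ≤ θ) (hsb : s ≤ b) (hC : 0 ≤ C)
    (hEm : ∀ t ∈ Icc s b, E t ≤ Cm)
    (hinc : ∀ r ∈ Icc s b, ∀ t ∈ Icc s b, E t - E r ≤ C * |t - r|)
    (hR : MonotoneOn R (Icc s b)) (hRd : ∀ t ∈ Ioo s b, HasDerivAt R (R' t) t)
    (hRi : ∀ t ∈ Ioo s b, θ * R t ^ 2 + μ t ≤ R' t) (h0 : E s ≤ R s)
    (hd : ∀ᵐ t, t ∈ Ioo s b → ∀ d, HasDerivAt E d t → d ≤ θ * E t ^ 2 + μ t) : E b ≤ R b := by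
  have hsI : s ∈ Icc s b := left_mem_Icc.2 hsb
  have hbI : b ∈ Icc s b := right_mem_Icc.2 hsb
  set K := θ * (|Cm| + (|R s| + |R b|)) with hK
  have hK0 : 0 ≤ K := by positivity
  set L : ℝ → ℝ := fun t => max (E t - R t) 0 * Real.exp (-(K * (t - s))) with hL
  have hL0 : ∀ t, 0 ≤ L t := fun t => mul_nonneg (le_max_right _ _) (Real.exp_pos _).le
  have hinc' : ∀ r ∈ Icc s b, ∀ t ∈ Icc s b, r ≤ t → L t - L r ≤ C * (t - r) := by
    intro r hr t ht hrt
    have h1 := hinc r hr t ht
    rw [abs_of_nonneg (by linarith)] at h1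
    have h2 := hR hr ht hrt
    have h7 : 0 ≤ C * (t - r) := mul_nonneg hC (by linarith)
    have h3 : max (E t - R t) 0 ≤ max (E r - R r) 0 + C * (t - r) := by
      refine max_le ?_ ?_
      · have := le_max_left (E r - R r) 0
        linarith
      · have := le_max_right (E r - R r) 0
        linarith
    have h4 : Real.exp (-(K * (t - s))) ≤ Real.exp (-(K * (r - s))) :=
      Real.exp_le_exp.2 (by nlinarith)
    have h5 : Real.exp (-(K * (t - s))) ≤ 1 := Real.exp_le_one_iff.2 (by
      have : 0 ≤ K * (t - s) := mul_nonneg hK0 (by linarith [ht.1])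
      linarith)
    have h6 : 0 ≤ max (E r - R r) 0 := le_max_right _ _
    calc L t - L r ≤ (max (E r - R r) 0 + C * (t - r)) * Real.exp (-(K * (t - s)))
          - max (E r - R r) 0 * Real.exp (-(K * (r - s))) :=
          sub_le_sub_right (mul_le_mul_of_nonneg_right h3 (Real.exp_pos _).le) _
      _ ≤ C * (t - r) := by nlinarith
  have hder : ∀ᵐ t, t ∈ Ioo s b → ∀ d, HasDerivAt L d t → d ≤ (0 : ℝ) := by
    filter_upwards [hd] with t k1 htI d hdL
    have htI' : t ∈ Icc s b := Ioo_subset_Icc_self htI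
    by_cases hw : E t - R t ≤ 0
    · have h1 : L t = 0 := by simp only [hL]; rw [max_eq_right hw, zero_mul]
      have h2 : IsLocalMin L t := Eventually.of_forall fun r => by rw [h1]; exact hL0 r
      rw [← hdL.deriv, h2.deriv_eq_zero]
    push Not at hw
    have hev : ∀ᶠ r in 𝓝 t, r ∈ Icc s b := Icc_mem_nhds htI.1 htI.2
    -- positivity near `t`
    have hRc : ContinuousAt R t := (hRd t htI).continuousAt
    have hEc : ∀ᶠ r in 𝓝 t, 0 < E r - R r := by
      have h1 : ∀ᶠ r in 𝓝 t, E t - R r - C * |t - r| > 0 := by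
        have h2 : ContinuousAt (fun r => E t - R r - C * |t - r|) t :=
          (continuousAt_const.sub hRc).sub (by fun_prop)
        have h3 : 0 < E t - R t - C * |t - t| := by simpa using hw
        exact h2.eventually (lt_mem_nhds h3)
      filter_upwards [h1, hev] with r hr1 hr2
      have := hinc r hr2 t htI'
      linarith
    have hdE : HasDerivAt E (d * Real.exp (K * (t - s)) + L t * (Real.exp (K * (t - s)) * K)
        + R' t) t := by
      have h1 : HasDerivAt (fun r => K * (r - s)) K t := by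
        have := ((hasDerivAt_id t).sub_const s).const_mul K
        simpa using this
      have h2 := (hdL.mul h1.exp).add (hRd t htI)
      refine h2.congr_of_eventuallyEq ?_
      filter_upwards [hEc] with r hr
      simp only [hL, Pi.add_apply, Pi.mul_apply]
      rw [max_eq_left hr.le, mul_assoc, ← Real.exp_add]
      simp
    have h1 := k1 htI _ hdE
    have e1 : L t = (E t - R t) * Real.exp (-(K * (t - s))) := by
      simp only [hL]; rw [max_eq_left hw.le]
    have e2 : L t * (Real.exp (K * (t - s)) * K) = K * (E t - R t) := by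
      have : Real.exp (-(K * (t - s))) * Real.exp (K * (t - s)) = 1 := by
        rw [← Real.exp_add]; simp
      rw [e1]
      calc (E t - R t) * Real.exp (-(K * (t - s))) * (Real.exp (K * (t - s)) * K)
          = (E t - R t) * K * (Real.exp (-(K * (t - s))) * Real.exp (K * (t - s))) := by ring
        _ = _ := by rw [this]; ring
    rw [e2] at h1
    have h2 := hRi t htI
    have h3 : E t + R t ≤ |Cm| + (|R s| + |R b|) := by
      have a1 := hEm t htI'
      have a2 := hR htI' hbI htI'.2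
      have a3 := le_abs_self Cm
      have a4 := le_abs_self (R b)
      have a5 := abs_nonneg (R s)
      linarith
    have h4 : θ * (E t + R t) ≤ K := mul_le_mul_of_nonneg_left h3 hθ
    have h5 : θ * (E t + R t) * (E t - R t) ≤ K * (E t - R t) :=
      mul_le_mul_of_nonneg_right h4 hw.le
    have h6 : d * Real.exp (K * (t - s)) ≤ 0 := by nlinarith
    by_contra hcon
    push Not at hcon
    have := mul_pos hcon (Real.exp_pos (K * (t - s)))
    linarith
  have hfin := Pool.Agent.W786.Max.growth_of_ae hsb hinc' (r := fun _ => 0)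
    intervalIntegrable_const hder
  rw [intervalIntegral.integral_zero] at hfin
  have hLs : L s = 0 := by
    simp only [hL]
    rw [max_eq_right (by linarith), zero_mul]
  have hLb : L b ≤ 0 := by linarith
  by_contra hcon
  push Not at hcon
  have : 0 < L b := by
    simp only [hL]
    rw [max_eq_left (by linarith)]
    exact mul_pos (by linarith) (Real.exp_pos _)
  linarith

end Pool.Agent.Q126.NS
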