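import Pool.Agent.Q126.NS.Ext
import Pool.Agent.Q126.NS.Sup
import Pool.Agent.TH340.RC.Type1

/-!
The one-point criteria.
-/

set_option autoImplicit false

open MeasureTheory Set Filter Topology
open H459R3.NS Pool.Agent.W268.NS H121R3
open scoped ContDiff ENNReal

namespace Pool.Agent.Q126.NS

variable {ν T : ℝ} {u : ℝ → V → V} {p : ℝ → V → ℝ}

/-- growth of the maximum of a nonnegative function -/
theorem growth {f : ℝ → V → ℝ}
    (hf : ContDiffOn ℝ ∞ (fun z : ℝ × V => f z.1 z.2) (Ico 0 T ×ˢ univ))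
    (hp : ∀ t ∈ Ico 0 T, Per (f t)) (hf0 : ∀ t x, 0 ≤ f t x) {s b k : ℝ} {ρ : ℝ → ℝ} (hs : 0 < s)
    (hsb : s ≤ b) (hb : b < T) (hk : 0 ≤ k) (hρ : IntervalIntegrable ρ volume s b)
    (hρ0 : ∀ t ∈ Ioo s b, 0 ≤ ρ t)
    (hd : ∀ᵐ t, t ∈ Ioo s b → ∃ x D, (∀ y, f t y ≤ f t x) ∧ HasDerivAt (fun r => f r x) D t ∧
      D ≤ k * (ρ t * f t x)) (x : V) :
    f b x + 1 ≤ ((⨆ y, f s y) + 1) * Real.exp (k * ∫ t in s..b, ρ t) := by
  have hsub : Icc s b ⊆ Ico 0 T := fun t ht => ⟨hs.le.trans ht.1, ht.2.trans_lt hb⟩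
  obtain ⟨B, hB0, hB⟩ := slab_bound (f := f)
    (hf.continuousOn.mono (prod_mono hsub subset_rfl)) (fun t ht => hp t (hsub ht))
  obtain ⟨C, hC0, hC⟩ := time_lip hf hp hs hb
  have hB' : ∀ t ∈ Icc s b, ∀ x, f t x ≤ B := fun t ht x => (le_abs_self _).trans (hB t ht x)
  have hL' : ∀ r ∈ Icc s b, ∀ t ∈ Icc s b, ∀ x, f t x - f r x ≤ C * |t - r| :=
    fun r hr t ht x => (le_abs_self _).trans (hC r hr t ht x)
  have h1 := gronwall (E := fun t => ⨆ y, f t y) (ρ := ρ) (k := k) (C := C) hsb hk hC0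
    (fun t _ => Real.iSup_nonneg fun y => hf0 t y)
    (fun r hr t ht => sup_lip hB' hL' hr ht) hρ hρ0 (by
      filter_upwards [hd] with t k1 ht d hdE
      obtain ⟨x, D, hx, hD, hle⟩ := k1 ht
      have e1 := sup_deriv (F := f) hB' ht hx hD hdE
      rw [sup_eq hx, e1]
      exact hle)
  refine le_trans ?_ h1
  have h2 : f b x ≤ ⨆ y, f b y :=
    le_ciSup (f := f b) ⟨B, by rintro _ ⟨y, rfl⟩; exact hB' b (right_mem_Icc.2 hsb) y⟩ x
  linarith

theorem split_int {F : ℝ → ℝ} {s K : ℝ} (hs : s ∈ Ioo 0 T) (hF : IntegrableOn F (Ioo s T)) :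
    IntegrableOn (fun r => if r < s then K else F r) (Ioo 0 T) := by
  have h1 : Ioo 0 T = Ioo 0 s ∪ Ico s T := by
    ext r
    simp only [mem_Ioo, mem_union, mem_Ico]
    constructor
    · rintro ⟨a, b⟩
      rcases lt_or_ge r s with h | h
      · exact Or.inl ⟨a, h⟩
      · exact Or.inr ⟨h, b⟩
    · rintro (⟨a, b⟩ | ⟨a, b⟩)
      · exact ⟨a, b.trans hs.2⟩
      · exact ⟨hs.1.trans_le a, b⟩
  rw [h1]
  refine IntegrableOn.union ?_ ?_
  · have : IntegrableOn (fun _ : ℝ => K) (Ioo 0 s) := integrableOn_const (by simp) (by simp)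
    refine this.congr_fun (fun r hr => ?_) measurableSet_Ioo
    rw [if_pos hr.2]
  · have : IntegrableOn F (Ico s T) := by
      rw [integrableOn_Ico_iff_integrableOn_Ioo]
      exact hF
    refine this.congr_fun (fun r hr => ?_) measurableSet_Ico
    rw [if_neg (not_lt.2 hr.1)]

/-- pointwise bound of the stretching rate -/
theorem stretch_le (v : V → V) (x : V) {F : ℝ} (hF : 0 ≤ F) (hv : vortSq v x ≤ F ^ 2) :
    stretchRate v x ≤ 3 / 2 * F * gradSq v x := by
  have hG0 : 0 ≤ gradSq v x :=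
    Finset.sum_nonneg fun i _ => Finset.sum_nonneg fun j _ => sq_nonneg _
  have hW0 : 0 ≤ vortSq v x := Finset.sum_nonneg fun i _ => sq_nonneg _
  have h1 : stretchRate v x ^ 2 ≤ gradSq v x * vortSq v x ^ 2 := by
    have h := Finset.sum_mul_sq_le_sq_mul_sq (Finset.univ : Finset (Fin 3 × Fin 3))
      (fun q => gradM v x q.1 q.2) (fun q => vort v x q.1 * vort v x q.2)
    have e1 : ∑ q : Fin 3 × Fin 3, gradM v x q.1 q.2 * (vort v x q.1 * vort v x q.2)
        = stretchRate v x := by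
      rw [Fintype.sum_prod_type]
      unfold stretchRate
      exact Finset.sum_congr rfl fun i _ => Finset.sum_congr rfl fun j _ => by ring
    have e2 : ∑ q : Fin 3 × Fin 3, gradM v x q.1 q.2 ^ 2 = gradSq v x := by
      rw [Fintype.sum_prod_type]; rfl
    have e3 : ∑ q : Fin 3 × Fin 3, (vort v x q.1 * vort v x q.2) ^ 2 = vortSq v x ^ 2 := by
      rw [Fintype.sum_prod_type]
      unfold vortSq
      simp only [Fin.sum_univ_three]
      ring
    rw [e1, e2, e3] at h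
    exact h
  have h2 : vortSq v x ≤ 2 * gradSq v x := by
    unfold vortSq gradSq
    simp only [Fin.sum_univ_three, vort_zero, vort_one, vort_two]
    nlinarith [sq_nonneg (gradM v x 1 2 + gradM v x 2 1), sq_nonneg (gradM v x 2 0 + gradM v x 0 2),
      sq_nonneg (gradM v x 0 1 + gradM v x 1 0), sq_nonneg (gradM v x 0 0),
      sq_nonneg (gradM v x 1 1), sq_nonneg (gradM v x 2 2)]
  have h3 : gradSq v x * vortSq v x ^ 2 ≤ (3 / 2 * F * gradSq v x) ^ 2 := by
    have a1 : vortSq v x ^ 2 ≤ 2 * gradSq v x * F ^ 2 := by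
      rw [sq]
      exact mul_le_mul h2 hv hW0 (by positivity)
    have a2 : gradSq v x * vortSq v x ^ 2 ≤ gradSq v x * (2 * gradSq v x * F ^ 2) :=
      mul_le_mul_of_nonneg_left a1 hG0
    have a3 : 0 ≤ (F * gradSq v x) ^ 2 := sq_nonneg _
    nlinarith
  exact le_of_sq_le_sq_nonneg' (h1.trans h3) (by positivity)
where
  le_of_sq_le_sq_nonneg' {a b : ℝ} (h : a ^ 2 ≤ b ^ 2) (hb : 0 ≤ b) : a ≤ b :=
    (abs_le_of_sq_le_sq' h hb).2

/-- If the vorticity is integrable in time with values in `L^∞`, the solution is bounded. -/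
theorem bounded_of_vort (hν : 0 < ν) (h : IsSol ν T u p) {s : ℝ} (hs : s ∈ Ioo 0 T) {F : ℝ → ℝ}
    (hF0 : ∀ t ∈ Ico s T, 0 ≤ F t) (hF : IntegrableOn F (Ioo s T))
    (hb : ∀ t ∈ Ico s T, ∀ x, vortSq (u t) x ≤ F t ^ 2) :
    ∃ M, ∀ t ∈ Ico 0 T, ∀ x i, |u t x i| ≤ M := by
  have hsub : Icc 0 s ⊆ Ico 0 T := Icc_subset_Ico_right hs.2
  have hsm : ContDiffOn ℝ ∞ (fun z : ℝ × V => vortSq (u z.1) z.2) (Ico 0 T ×ˢ univ) :=
    ContDiffOn.sum fun i _ => (smooth_vort h i).pow 2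
  have hper : ∀ t ∈ Ico 0 T, Per (vortSq (u t)) := fun t ht k x => by
    unfold vortSq
    exact Finset.sum_congr rfl fun i _ => congrArg (· ^ 2) ((sp_vort h ht i).per k x)
  obtain ⟨B, hB0, hB⟩ := slab_bound (f := fun t => vortSq (u t))
    (hsm.continuousOn.mono (prod_mono hsub subset_rfl)) (fun t ht => hper t (hsub ht))
  set K := B + 1 with hK
  have hKb : ∀ t ∈ Icc 0 s, ∀ x, vortSq (u t) x ≤ K ^ 2 := by
    intro t ht x
    have := (le_abs_self _).trans (hB t ht x)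
    nlinarith
  set F' : ℝ → ℝ := fun r => if r < s then K else F r with hF'
  have hF'0 : ∀ t ∈ Ico 0 T, 0 ≤ F' t := by
    intro t ht
    simp only [hF']
    split_ifs with h1
    · positivity
    · exact hF0 t ⟨not_lt.1 h1, ht.2⟩
  have hF'b : ∀ t ∈ Ico 0 T, ∀ x, vortSq (u t) x ≤ F' t ^ 2 := by
    intro t ht x
    simp only [hF']
    split_ifs with h1
    · exact hKb t ⟨ht.1, h1.le⟩ x
    · exact hb t ⟨not_lt.1 h1, ht.2⟩ x
  have hF'i : IntegrableOn F' (Ioo 0 T) := split_int hs hF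
  set g : ℝ → ℝ := fun r => 3 * F' r with hg
  have hgi : IntegrableOn g (Ioo 0 T) := hF'i.const_mul 3
  have hg0 : ∀ t ∈ Ioo 0 T, 0 ≤ g t := fun t ht =>
    mul_nonneg (by norm_num) (hF'0 t (Ioo_subset_Ico_self ht))
  have hgI : ∀ t ∈ Ico 0 T, IntegrableOn g (Icc 0 t) := by
    intro t ht
    rw [integrableOn_Icc_iff_integrableOn_Ioc, integrableOn_Ioc_iff_integrableOn_Ioo]
    exact hgi.mono_set (Ioo_subset_Ioo_right ht.2.le)
  refine (h.gron hν (g := g) (B := ∫ r in Ioo 0 T, g r) (δ := 2) (by norm_num) hg0 hgI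
    (fun t ht => ?_) (fun r hr => ?_)).2
  · rw [intervalIntegral.integral_of_le ht.1, integral_Ioc_eq_integral_Ioo]
    refine setIntegral_mono_set hgi ?_ (Ioo_subset_Ioo_right ht.2.le).eventuallyLE
    filter_upwards [ae_restrict_mem measurableSet_Ioo] with r hr
    exact hg0 r hr
  · have hI : r ∈ Ico 0 T := ⟨hr.1.le, hr.2⟩
    have hv := fun i => h.sp hI i
    have e1 := cub_eq_stretch hv (h.divfree r hI)
    have hG : ∀ i j, IntegrableOn (fun x => pd j (fun y => u r y i) x ^ 2) cube := fun i j => by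
      have := (((hv i).pd j).mul ((hv i).pd j)).int
      refine this.congr (Filter.Eventually.of_forall fun x => ?_)
      simp only [sq]
    have e2 : ∫ x in cube, gradSq (u r) x = enstrophy (u r) := by
      have e3 : ∀ x, gradSq (u r) x = ∑ i, ∑ j, pd j (fun y => u r y i) x ^ 2 := by
        intro x
        unfold gradSq
        rw [Finset.sum_comm]
        rfl
      simp_rw [e3]
      unfold enstrophy
      rw [integral_finsetSum _ fun i _ => integrable_finsetSum _ fun j _ => hG i j]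
      exact Finset.sum_congr rfl fun i _ => integral_finsetSum _ fun j _ => hG i j
    have hGi : IntegrableOn (gradSq (u r)) cube := by
      have e3 : gradSq (u r) = fun x => ∑ i, ∑ j, pd j (fun y => u r y i) x ^ 2 := by
        funext x
        unfold gradSq
        rw [Finset.sum_comm]
        rfl
      rw [e3]
      exact integrable_finsetSum _ fun i _ => integrable_finsetSum _ fun j _ => hG i j
    have e4 : ∫ x in cube, stretchRate (u r) x ≤ ∫ x in cube, 3 / 2 * F' r * gradSq (u r) x := by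
      refine integral_mono (sp_stretchRate hv).int (hGi.const_mul _) fun x => ?_
      exact stretch_le (u r) x (hF'0 r hI) (hF'b r hI x)
    rw [integral_const_mul, e2] at e4
    have e5 : g r * enstrophy (u r) = 2 * (3 / 2 * F' r * enstrophy (u r)) := by
      simp only [hg]; ring
    rw [e5]
    have : -(2 * cub fun i y => u r y i) = 2 * ∫ x in cube, stretchRate (u r) x := by
      rw [← e1]; ring
    rw [this]
    linarith

/-- If the velocity is square integrable in time with values in `L^∞`, it is bounded. -/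
theorem bounded_of_speed (hν : 0 < ν) (h : IsSol ν T u p) {s : ℝ} (hs : s ∈ Ioo 0 T) {F : ℝ → ℝ}
    (hF0 : ∀ t ∈ Ico s T, 0 ≤ F t) (hF : IntegrableOn (fun t => F t ^ 2) (Ioo s T))
    (hb : ∀ t ∈ Ico s T, ∀ x, speedSq (u t) x ≤ F t ^ 2) :
    ∃ M, ∀ t ∈ Ico 0 T, ∀ x i, |u t x i| ≤ M := by
  have hsub : Icc 0 s ⊆ Ico 0 T := Icc_subset_Ico_right hs.2
  have hsm : ContDiffOn ℝ ∞ (fun z : ℝ × V => speedSq (u z.1) z.2) (Ico 0 T ×ˢ univ) :=
    ContDiffOn.sum fun i _ => (h.smooth_c i).pow 2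
  have hper : ∀ t ∈ Ico 0 T, Per (speedSq (u t)) := fun t ht k x => by
    unfold speedSq
    rw [h.per_u t ht k x]
  obtain ⟨B, hB0, hB⟩ := slab_bound (f := fun t => speedSq (u t))
    (hsm.continuousOn.mono (prod_mono hsub subset_rfl)) (fun t ht => hper t (hsub ht))
  set K := B + 1 with hK
  have hKb : ∀ t ∈ Icc 0 s, ∀ x, speedSq (u t) x ≤ K ^ 2 := by
    intro t ht x
    have := (le_abs_self _).trans (hB t ht x)
    nlinarith
  set F' : ℝ → ℝ := fun r => if r < s then K else F r with hF'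
  have hF'0 : ∀ t ∈ Ico 0 T, 0 ≤ F' t := by
    intro t ht
    simp only [hF']
    split_ifs with h1
    · positivity
    · exact hF0 t ⟨not_lt.1 h1, ht.2⟩
  have hF'b : ∀ t ∈ Ico 0 T, ∀ x, speedSq (u t) x ≤ F' t ^ 2 := by
    intro t ht x
    simp only [hF']
    split_ifs with h1
    · exact hKb t ⟨ht.1, h1.le⟩ x
    · exact hb t ⟨not_lt.1 h1, ht.2⟩ x
  have hF'i : IntegrableOn (fun t => F' t ^ (2 : ℝ)) (Ioo 0 T) := by
    have h1 : IntegrableOn (fun r => if r < s then K ^ 2 else F r ^ 2) (Ioo 0 T) :=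
      split_int hs hF
    refine h1.congr_fun (fun r _ => ?_) measurableSet_Ioo
    simp only [hF']
    split_ifs <;> norm_cast
  obtain ⟨C, -, hC⟩ := serrin (p := ∞) (q := 2) (ν := ν) (K := 0) (lam := 0) (κ := 0)
    (by simp) (by simp) hν le_rfl le_rfl (by norm_num)
  refine (hC T 0 u p F' (fun _ => 0) h le_rfl
    (fun t ht => ⟨hF'0 t (Ioo_subset_Ico_self ht), le_rfl⟩) hF'i integrableOn_zero
    (fun t ht => ?_)).2
  have hI : t ∈ Ico 0 T := ⟨ht.1.le, ht.2⟩
  have hz : SPV (fun _ : V => (0 : V)) := ⟨contDiff_const, fun i x => rfl⟩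
  have hpd : ∀ j, pd j (fun _ : V => (0 : ℝ)) = fun _ => 0 := fun j => by
    funext x; simp [pd]
  have z1 : enstrophy (fun _ : V => (0 : V)) = 0 := by
    unfold enstrophy
    simp [hpd]
  have z2 : palin (fun _ : V => (0 : V)) = 0 := by
    unfold palin lap
    simp [hpd]
  have z3 : stretch (fun _ : V => (0 : V)) = 0 := by
    unfold stretch
    simp [hpd]
  refine ⟨fun _ => 0, fun _ => 0, ∅, hz, hz, dimTwo_empty, fun i k _ => ?_, ?_, ?_, ?_, ?_,
    fun i => ?_⟩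
  · unfold fr fc; simp
  · rw [z1]; simp
  · rw [z2]; simp
  · rw [z1]; simp
  · rw [z3]; simp
  · have h1 : (fun x => u t x i - (0 : V) i - (0 : V) i) = fun x => u t x i := by
      funext x; simp
    rw [h1]
    rw [eLpNorm_exponent_top]
    refine eLpNormEssSup_le_of_ae_bound (Filter.Eventually.of_forall fun x => ?_)
    rw [Real.norm_eq_abs]
    refine abs_le_of_sq_le_sq ?_ (hF'0 t hI)
    refine le_trans ?_ (hF'b t hI x)
    exact Finset.single_le_sum (f := fun i => u t x i ^ 2) (fun j _ => sq_nonneg _)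
      (Finset.mem_univ i)

/-- **The criterion for the speed.** -/
theorem crit_speed (hν : 0 < ν) (h : IsSol ν T u p) {s : ℝ} (hs : s ∈ Ioo 0 T) {ρ : ℝ → ℝ}
    (hρ0 : ∀ t ∈ Ioo s T, 0 ≤ ρ t) (hρ : ∀ t ∈ Ioo s T, IntervalIntegrable ρ volume s t)
    (hi : IntegrableOn (fun t => Real.exp (2 * ∫ r in s..t, ρ r)) (Ioo s T))
    (hc : ∀ᵐ t, t ∈ Ioo s T → CondSpeed ν (ρ t) (u t) (p t)) :
    ∃ M, ∀ t ∈ Ico 0 T, ∀ x i, |u t x i| ≤ M := by
  have hsm : ContDiffOn ℝ ∞ (fun z : ℝ × V => speedSq (u z.1) z.2) (Ico 0 T ×ˢ univ) :=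
    ContDiffOn.sum fun i _ => (h.smooth_c i).pow 2
  have hper : ∀ t ∈ Ico 0 T, Per (speedSq (u t)) := fun t ht k x => by
    unfold speedSq
    rw [h.per_u t ht k x]
  have hnn : ∀ t x, 0 ≤ speedSq (u t) x := fun t x => Finset.sum_nonneg fun i _ => sq_nonneg _
  set W := (⨆ y, speedSq (u s) y) + 1 with hW
  have hW0 : 0 < W := by
    have : 0 ≤ ⨆ y, speedSq (u s) y := Real.iSup_nonneg fun y => hnn s y
    linarith
  have key : ∀ b ∈ Ico s T, ∀ x,
      speedSq (u b) x ≤ W * Real.exp (2 * ∫ t in s..b, ρ t) := by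
    intro b hb x
    have hρb : IntervalIntegrable ρ volume s b := by
      rcases hb.1.eq_or_lt with h1 | h1
      · rw [← h1]
      · exact hρ b ⟨h1, hb.2⟩
    have h1 := growth (f := fun t => speedSq (u t)) hsm hper hnn (k := 2) hs.1 hb.1 hb.2
      (by norm_num) hρb (fun t ht => hρ0 t ⟨ht.1, ht.2.trans hb.2⟩) (by
        filter_upwards [hc] with t k1 ht
        obtain ⟨x, hx, hle⟩ := k1 ⟨ht.1, ht.2.trans hb.2⟩
        obtain ⟨D, hD, hD2⟩ := speed_ext hν.le h ⟨hs.1.trans ht.1, ht.2.trans hb.2⟩ hx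
        exact ⟨x, D, hx, hD, by linarith⟩) x
    rw [← hW] at h1
    linarith
  refine bounded_of_speed hν h hs (F := fun t => Real.sqrt W * Real.exp (∫ r in s..t, ρ r))
    (fun t _ => by positivity) ?_ (fun t ht x => ?_)
  · have h1 : IntegrableOn (fun t => W * Real.exp (2 * ∫ r in s..t, ρ r)) (Ioo s T) :=
      hi.const_mul W
    refine h1.congr_fun (fun t _ => ?_) measurableSet_Ioo
    beta_reduce
    rw [mul_pow, Real.sq_sqrt hW0.le, ← Real.exp_nat_mul]
    norm_num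
  · rw [mul_pow, Real.sq_sqrt hW0.le, ← Real.exp_nat_mul]
    have := key t ht x
    norm_num
    exact this

theorem vortSq_nonneg (v : V → V) (x : V) : 0 ≤ vortSq v x :=
  Finset.sum_nonneg fun _ _ => sq_nonneg _

/-- bound of the vorticity -/
theorem vort_growth (hν : 0 < ν) (h : IsSol ν T u p) {s : ℝ} (hs : s ∈ Ioo 0 T) {ρ : ℝ → ℝ}
    (hρ0 : ∀ t ∈ Ioo s T, 0 ≤ ρ t) (hρ : ∀ t ∈ Ioo s T, IntervalIntegrable ρ volume s t)
    (hc : ∀ᵐ t, t ∈ Ioo s T → CondVort ν (ρ t) (u t)) :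
    ∃ W : ℝ, 0 < W ∧ ∀ b ∈ Ico s T, ∀ x,
      vortSq (u b) x ≤ (W * Real.exp (∫ t in s..b, ρ t)) ^ 2 := by
  have hsm : ContDiffOn ℝ ∞ (fun z : ℝ × V => vortSq (u z.1) z.2) (Ico 0 T ×ˢ univ) :=
    ContDiffOn.sum fun i _ => (smooth_vort h i).pow 2
  have hper : ∀ t ∈ Ico 0 T, Per (vortSq (u t)) := fun t ht k x => by
    unfold vortSq
    exact Finset.sum_congr rfl fun i _ => congrArg (· ^ 2) ((sp_vort h ht i).per k x)
  set W := (⨆ y, vortSq (u s) y) + 1 with hW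
  have hW0 : 0 < W := by
    have : 0 ≤ ⨆ y, vortSq (u s) y := Real.iSup_nonneg fun y => vortSq_nonneg _ y
    linarith
  refine ⟨Real.sqrt W, Real.sqrt_pos.2 hW0, fun b hb x => ?_⟩
  have hρb : IntervalIntegrable ρ volume s b := by
    rcases hb.1.eq_or_lt with h1 | h1
    · rw [← h1]
    · exact hρ b ⟨h1, hb.2⟩
  have h1 := growth (f := fun t => vortSq (u t)) hsm hper (fun t x => vortSq_nonneg _ x) (k := 2)
    hs.1 hb.1 hb.2 (by norm_num) hρb (fun t ht => hρ0 t ⟨ht.1, ht.2.trans hb.2⟩) (by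
      filter_upwards [hc] with t k1 ht
      obtain ⟨x, hx, hle⟩ := k1 ⟨ht.1, ht.2.trans hb.2⟩
      obtain ⟨D, hD, hD2⟩ := vort_ext hν.le h ⟨hs.1.trans ht.1, ht.2.trans hb.2⟩ hx
      exact ⟨x, D, hx, hD, by linarith⟩) x
  rw [← hW] at h1
  rw [mul_pow, Real.sq_sqrt hW0.le, ← Real.exp_nat_mul]
  norm_num
  linarith

/-- **The criterion for the vorticity.** -/
theorem crit_vort (hν : 0 < ν) (h : IsSol ν T u p) {s : ℝ} (hs : s ∈ Ioo 0 T) {ρ : ℝ → ℝ}
    (hρ0 : ∀ t ∈ Ioo s T, 0 ≤ ρ t) (hρ : ∀ t ∈ Ioo s T, IntervalIntegrable ρ volume s t)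
    (hi : IntegrableOn (fun t => Real.exp (∫ r in s..t, ρ r)) (Ioo s T))
    (hc : ∀ᵐ t, t ∈ Ioo s T → CondVort ν (ρ t) (u t)) :
    ∃ M, ∀ t ∈ Ico 0 T, ∀ x i, |u t x i| ≤ M := by
  obtain ⟨W, hW0, hW⟩ := vort_growth hν h hs hρ0 hρ hc
  exact bounded_of_vort hν h hs (F := fun t => W * Real.exp (∫ r in s..t, ρ r))
    (fun t _ => by positivity) (hi.const_mul W) hW

end Pool.Agent.Q126.NS
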