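import Pool.Agent.Q126.NS.Str
import Pool.Agent.TH340.RC.Fin

/-!
Sharpness of the thresholds of the one-point criteria: linear flows.
-/

set_option autoImplicit false

open MeasureTheory Set Filter Topology
open H459R3.NS Pool.Agent.W268.NS
open scoped ContDiff

namespace Pool.Agent.Q126.NS

open Pool.Agent.TH340.RC (ug pg ag yg bg hg dg Ag)

/-- `(u, p)` is a smooth, not necessarily periodic, solution of the Navier-Stokes equations with
viscosity `ν` and without force on `[0, T) × ℝ³`. -/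
structure IsSpaceSol (ν T : ℝ) (u : ℝ → V → V) (p : ℝ → V → ℝ) : Prop where
  smooth_u : ContDiffOn ℝ ∞ (fun z : ℝ × V => u z.1 z.2) (Ico 0 T ×ˢ univ)
  smooth_p : ContDiffOn ℝ ∞ (fun z : ℝ × V => p z.1 z.2) (Ico 0 T ×ˢ univ)
  divfree : ∀ t ∈ Ico 0 T, ∀ x, ∑ i, pd i (fun y => u t y i) x = 0
  momentum : ∀ t ∈ Ioo 0 T, ∀ x i,
    deriv (fun s => u s x i) t + ∑ j, u t x j * pd j (fun y => u t y i) x
      = ν * ∑ j, pd j (pd j (fun y => u t y i)) x - pd i (p t) x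

variable {α T : ℝ}

theorem pd_ug (α T t : ℝ) (x : V) (i j : Fin 3) :
    pd j (fun y => ug α T t y i) x = Ag α T t i j := by
  unfold pd
  have h1 := Pool.Agent.TH340.RC.ug_fderiv α T t x
  have h2 : HasFDerivAt (fun y => ug α T t y i)
      ((ContinuousLinearMap.proj i : V →L[ℝ] ℝ).comp
        (Matrix.mulVecLin (Ag α T t)).toContinuousLinearMap) x :=
    (ContinuousLinearMap.proj i : V →L[ℝ] ℝ).hasFDerivAt.comp x h1
  rw [h2.fderiv]
  simp

theorem gradM_ug (α T t : ℝ) (x : V) (i j : Fin 3) :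
    gradM (ug α T t) x i j = Ag α T t j i := pd_ug α T t x j i

theorem pd_const (k : Fin 3) (c : ℝ) (x : V) : pd k (fun _ : V => c) x = 0 := by
  simp [pd]

theorem ug_space (ν α T : ℝ) : IsSpaceSol ν T (ug α T) (pg α T) := by
  have h := Pool.Agent.TH340.RC.ug_solution α T
  refine ⟨h.smooth_u, h.smooth_p, fun t _ x => ?_, fun t ht x i => ?_⟩
  · simp_rw [pd_ug]
    simp [Fin.sum_univ_three, Ag]
    ring
  · have h1 := h.momentum t ⟨ht.1.le, ht.2⟩ x i
    rw [derivWithin_of_mem_nhds (Ico_mem_nhds ht.1 ht.2)] at h1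
    simp_rw [Pool.Agent.TH340.RC.ug_fderiv_apply] at h1
    have h2 : ∀ j, pd j (pd j (fun y => ug α T t y i)) x = 0 := by
      intro j
      have : pd j (fun y => ug α T t y i) = fun _ => Ag α T t i j := funext fun y => pd_ug α T t y i j
      rw [this]
      exact pd_const _ _ _
    simp_rw [pd_ug, h2]
    rw [h1]
    unfold pd
    simp

theorem strainGradSq_ug (α T t : ℝ) (x e : V) : strainGradSq (ug α T t) x e = 0 := by
  unfold strainGradSq
  have h : ∀ (i j k : Fin 3), pd k (fun y => strain (ug α T t) y i j) x = 0 := by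
    intro i j k
    have : (fun y => strain (ug α T t) y i j)
        = fun _ => (Ag α T t j i + Ag α T t i j) / 2 := by
      funext y
      unfold strain
      rw [gradM_ug, gradM_ug]
    rw [this]
    exact pd_const _ _ _
  simp [h]

theorem rate_ug' (α T t : ℝ) (x e : V) :
    rate (ug α T t) x e = -(ag α T t / 2) * (e 0 ^ 2 + e 1 ^ 2) + ag α T t * e 2 ^ 2 := by
  rw [rate_eq_dot]
  simp only [dotProduct, Matrix.mulVec, Fin.sum_univ_three, gradM_ug]
  simp [Ag]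
  ring

theorem vort_ug' (α T t : ℝ) (x : V) : vort (ug α T t) x = ![0, 0, yg α T t] := by
  funext i
  fin_cases i
  · simp only [Fin.zero_eta, vort_zero, gradM_ug]; simp [Ag]
  · simp only [Fin.mk_one, vort_one, gradM_ug]; simp [Ag]
  · simp only [Fin.reduceFinMk, vort_two, gradM_ug]; simp [Ag]

theorem vortSq_ug (α T t : ℝ) (x : V) : vortSq (ug α T t) x = yg α T t ^ 2 := by
  unfold vortSq
  rw [vort_ug']
  simp [Fin.sum_univ_three]

theorem unit_sq' {e : V} (he : Unit e) : e 0 ^ 2 + e 1 ^ 2 + e 2 ^ 2 = 1 := by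
  have : ∑ i, e i ^ 2 = 1 := he
  rwa [Fin.sum_univ_three] at this

theorem comp_ug' (hα : 0 ≤ α) {t : ℝ} (ht : t < T) (x : V) :
    MostCompressed (ug α T t) x (Pi.single 0 1) := by
  refine ⟨unit_single, fun y f hf => ?_⟩
  rw [rate_ug', rate_ug']
  have h1 := unit_sq' hf
  have h2 := Pool.Agent.TH340.RC.ag_nonneg (α := α) hα ht
  have h3 := sq_nonneg (f 2)
  simp
  nlinarith

theorem unit_single2 : Unit (Pi.single 2 1 : V) := by
  simp [Unit, Fin.sum_univ_three]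

theorem stretch_ug' (hα : 0 ≤ α) {t : ℝ} (ht : t < T) (x : V) :
    MostStretched (ug α T t) x (Pi.single 2 1) := by
  refine ⟨unit_single2, fun y f hf => ?_⟩
  rw [rate_ug', rate_ug']
  have h1 := unit_sq' hf
  have h2 := Pool.Agent.TH340.RC.ag_nonneg (α := α) hα ht
  have h3 := sq_nonneg (f 2)
  simp
  nlinarith

theorem hessRate_ug (α T t : ℝ) (x e : V) :
    hessRate (pg α T t) x e = ∑ i, dg α T t i * e i ^ 2 := by
  have h0 : ∀ j, pd j (pg α T t) = fun y => dg α T t j * y j := fun j =>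
    funext fun y => Pool.Agent.TH340.RC.pg_fderiv α T t y j
  have h1 : ∀ i j, pd i (pd j (pg α T t)) x = if i = j then dg α T t j else 0 := by
    intro i j
    rw [h0]
    have h2 : HasFDerivAt (fun y : V => dg α T t j * y j)
        (dg α T t j • (ContinuousLinearMap.proj j : V →L[ℝ] ℝ)) x :=
      ((ContinuousLinearMap.proj j : V →L[ℝ] ℝ).hasFDerivAt (x := x)).const_mul (dg α T t j)
    unfold pd
    rw [h2.fderiv]
    by_cases hij : i = j
    · subst hij; simp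
    · simp [hij]
  unfold hessRate
  simp_rw [h1]
  simp only [Fin.sum_univ_three]
  simp
  ring

theorem condC_ug' (hα : 0 ≤ α) {t : ℝ} (ht : t < T) {ν θ c : ℝ}
    (h : α / 2 - θ * (α / 2) ^ 2 ≤ c) :
    CondC ν θ (c / (T - t) ^ 2) (ug α T t) (pg α T t) := by
  refine ⟨0, Pi.single 0 1, comp_ug' hα ht 0, ?_⟩
  have hy : 0 < T - t := by linarith
  have e1 : hessRate (pg α T t) 0 (Pi.single 0 1) = hg α T t := by
    rw [hessRate_ug]
    simp [dg, Fin.sum_univ_three]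
  have e2 : perpSq (ug α T t) 0 (Pi.single 0 1) = yg α T t ^ 2 := by
    unfold perpSq
    rw [vortSq_ug, vort_ug']
    simp [Fin.sum_univ_three]
  have e3 : rate (ug α T t) 0 (Pi.single 0 1) = -(ag α T t / 2) := by
    rw [rate_ug']
    simp
  rw [e1, e2, e3, strainGradSq_ug]
  unfold hg bg ag
  have h4 : (α / 2 - θ * (α / 2) ^ 2) / (T - t) ^ 2 ≤ c / (T - t) ^ 2 := by gcongr
  have h5 : (α / 2 - θ * (α / 2) ^ 2) / (T - t) ^ 2
      = α * (T - t)⁻¹ ^ 2 / 2 - θ * (α * (T - t)⁻¹ / 2) ^ 2 := by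
    field_simp
  rw [h5] at h4
  simp only [mul_zero, zero_div]
  linarith

theorem condS_ug' (hα : 0 ≤ α) {t : ℝ} (ht : t < T) {ν θ c : ℝ} (h : α - θ * α ^ 2 ≤ c) :
    CondS ν θ (c / (T - t) ^ 2) (ug α T t) (pg α T t) := by
  refine ⟨0, Pi.single 2 1, stretch_ug' hα ht 0, ?_⟩
  have hy : 0 < T - t := by linarith
  have e1 : hessRate (pg α T t) 0 (Pi.single 2 1) = -(bg α T t + ag α T t ^ 2) := by
    rw [hessRate_ug]
    simp [dg, Fin.sum_univ_three]
  have e2 : perpSq (ug α T t) 0 (Pi.single 2 1) = 0 := by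
    unfold perpSq
    rw [vortSq_ug, vort_ug']
    simp [Fin.sum_univ_three]
  have e3 : rate (ug α T t) 0 (Pi.single 2 1) = ag α T t := by
    rw [rate_ug']
    simp
  rw [e1, e2, e3, strainGradSq_ug]
  unfold bg ag
  have h4 : (α - θ * α ^ 2) / (T - t) ^ 2 ≤ c / (T - t) ^ 2 := by gcongr
  have h5 : (α - θ * α ^ 2) / (T - t) ^ 2
      = α * (T - t)⁻¹ ^ 2 - θ * (α * (T - t)⁻¹) ^ 2 := by
    field_simp
  rw [h5] at h4
  simp only [mul_zero, zero_div]
  linarith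

theorem condV_ug {t : ℝ} {ν : ℝ} : CondVort ν (α / (T - t)) (ug α T t) := by
  refine ⟨0, fun y => by rw [vortSq_ug, vortSq_ug], ?_⟩
  have h1 : vortGradSq (ug α T t) 0 = 0 := by
    unfold vortGradSq
    have : ∀ i j : Fin 3, pd j (fun y => vort (ug α T t) y i) 0 = 0 := by
      intro i j
      have : (fun y => vort (ug α T t) y i) = fun _ => (![0, 0, yg α T t] : V) i :=
        funext fun y => by rw [vort_ug']
      rw [this]
      exact pd_const _ _ _
    simp [this]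
  rw [h1, stretch_eq_rate, rate_ug', vort_ug', vortSq_ug]
  unfold ag
  simp
  rw [div_eq_mul_inv]

/-- sharpness of the constant `1` of the criterion for the vorticity -/
theorem sharpV (ν T : ℝ) {κ : ℝ} : ∃ (u : ℝ → V → V) (p : ℝ → V → ℝ),
    IsSpaceSol ν T u p ∧ (∀ t, ∃ A : Matrix (Fin 3) (Fin 3) ℝ, ∀ x, u t x = A.mulVec x) ∧
    (∀ t ∈ Ico 0 T, CondVort ν (κ / (T - t)) (u t)) ∧
    ∀ t ∈ Ico 0 T, ∀ x, vortSq (u t) x = ((T - t) ^ (-κ)) ^ 2 :=
  ⟨ug κ T, pg κ T, ug_space ν κ T,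
    fun t => ⟨Ag κ T t, fun x => congrFun (Pool.Agent.TH340.RC.ug_eq κ T t) x⟩,
    fun _ _ => condV_ug, fun t _ x => vortSq_ug κ T t x⟩

/-- sharpness, compression -/
theorem sharpC' (ν T : ℝ) {θ c : ℝ} (hθ : 0 < θ) (h4 : 4 * θ * c < 1)
    (hle : θ ≤ 1 + Real.sqrt (1 - 4 * θ * c)) :
    ∃ (u : ℝ → V → V) (p : ℝ → V → ℝ) (α : ℝ), IsSpaceSol ν T u p ∧
      (∀ t, ∃ A : Matrix (Fin 3) (Fin 3) ℝ, ∀ x, u t x = A.mulVec x) ∧
      (∀ t ∈ Ico 0 T, CondC ν θ (c / (T - t) ^ 2) (u t) (p t)) ∧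
      (∀ t ∈ Ico 0 T, ∀ x e, Unit e →
        -((1 + Real.sqrt (1 - 4 * θ * c)) / (2 * θ * (T - t))) ≤ rate (u t) x e) ∧
      1 ≤ α ∧ ∀ t ∈ Ico 0 T, ∀ x, vortSq (u t) x = ((T - t) ^ (-α)) ^ 2 := by
  set δ := Real.sqrt (1 - 4 * θ * c) with hδ
  have hδ0 : 0 ≤ δ := Real.sqrt_nonneg _
  set α := (1 + δ) / θ with hα
  have hα0 : 0 ≤ α := by positivity
  have hα1 : 1 ≤ α := by rw [hα, le_div_iff₀ hθ]; linarith
  have hα2 : α / 2 = (1 + δ) / (2 * θ) := by rw [hα]; field_simp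
  refine ⟨ug α T, pg α T, α, ug_space ν α T,
    fun t => ⟨Ag α T t, fun x => congrFun (Pool.Agent.TH340.RC.ug_eq α T t) x⟩,
    fun t ht => condC_ug' hα0 ht.2 ?_, fun t ht x e he => ?_, hα1, fun t _ x => vortSq_ug α T t x⟩
  · rw [hα2, Pool.Agent.TH340.RC.alg hθ h4]
  · have h1 := (comp_ug' (α := α) hα0 ht.2 0).2 x e he
    have e3 : rate (ug α T t) 0 (Pi.single 0 1) = -(ag α T t / 2) := by
      rw [rate_ug']
      simp
    rw [e3] at h1
    refine le_trans (le_of_eq ?_) h1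
    have hy : 0 < T - t := by linarith [ht.2]
    unfold ag
    rw [hα]
    field_simp

/-- sharpness, stretching -/
theorem sharpS' (ν T : ℝ) {θ c : ℝ} (hθ : 0 < θ) (h4 : 4 * θ * c < 1)
    (hle : 2 * θ ≤ 1 + Real.sqrt (1 - 4 * θ * c)) :
    ∃ (u : ℝ → V → V) (p : ℝ → V → ℝ) (α : ℝ), IsSpaceSol ν T u p ∧
      (∀ t, ∃ A : Matrix (Fin 3) (Fin 3) ℝ, ∀ x, u t x = A.mulVec x) ∧
      (∀ t ∈ Ico 0 T, CondS ν θ (c / (T - t) ^ 2) (u t) (p t)) ∧
      (∀ t ∈ Ico 0 T, ∀ x e, Unit e →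
        rate (u t) x e ≤ (1 + Real.sqrt (1 - 4 * θ * c)) / (2 * θ * (T - t))) ∧
      1 ≤ α ∧ ∀ t ∈ Ico 0 T, ∀ x, vortSq (u t) x = ((T - t) ^ (-α)) ^ 2 := by
  set δ := Real.sqrt (1 - 4 * θ * c) with hδ
  have hδ0 : 0 ≤ δ := Real.sqrt_nonneg _
  set α := (1 + δ) / (2 * θ) with hα
  have hα0 : 0 ≤ α := by positivity
  have hα1 : 1 ≤ α := by rw [hα, le_div_iff₀ (by positivity)]; linarith
  refine ⟨ug α T, pg α T, α, ug_space ν α T,
    fun t => ⟨Ag α T t, fun x => congrFun (Pool.Agent.TH340.RC.ug_eq α T t) x⟩,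
    fun t ht => condS_ug' hα0 ht.2 ?_, fun t ht x e he => ?_, hα1, fun t _ x => vortSq_ug α T t x⟩
  · rw [hα, Pool.Agent.TH340.RC.alg hθ h4]
  · have h1 := (stretch_ug' (α := α) hα0 ht.2 0).2 x e he
    have e3 : rate (ug α T t) 0 (Pi.single 2 1) = ag α T t := by
      rw [rate_ug']
      simp
    rw [e3] at h1
    refine h1.trans (le_of_eq ?_)
    have hy : 0 < T - t := by linarith [ht.2]
    unfold ag
    rw [hα]
    field_simp

end Pool.Agent.Q126.NS
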