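import Pool.Agent.Q126.NS.Fin

/-!
The one-point criteria for the extreme rates of strain.
-/

set_option autoImplicit false

open MeasureTheory Set Filter Topology
open H459R3.NS Pool.Agent.W268.NS H121R3
open scoped ContDiff ENNReal

namespace Pool.Agent.Q126.NS

variable {ν T : ℝ} {u : ℝ → V → V} {p : ℝ → V → ℝ}

theorem unit_abs {e : V} (he : Unit e) (i : Fin 3) : |e i| ≤ 1 := by
  have he' : ∑ i, e i ^ 2 = 1 := he
  have : e i ^ 2 ≤ 1 := by
    rw [← he']
    exact Finset.single_le_sum (f := fun i => e i ^ 2) (fun j _ => sq_nonneg _)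
      (Finset.mem_univ i)
  exact abs_le_one_iff_mul_self_le_one.2 (by nlinarith)

instance : Nonempty (V × {e : V // Unit e}) := ⟨(0, ⟨Pi.single 0 1, unit_single⟩)⟩

/-- comparison of the extreme rate of strain with a solution of the Riccati inequality -/
theorem rate_compare {σ θ : ℝ} (hσ : |σ| = 1) (hθ : 0 ≤ θ) (hν : 0 ≤ ν) (h : IsSol ν T u p)
    {s b : ℝ} (hs : 0 < s) (hsb : s ≤ b) (hb : b < T) {R R' μ : ℝ → ℝ}
    (hR : MonotoneOn R (Icc s b)) (hRd : ∀ t ∈ Ioo s b, HasDerivAt R (R' t) t)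
    (hRi : ∀ t ∈ Ioo s b, θ * R t ^ 2 + μ t ≤ R' t)
    (h0 : ∀ x e, Unit e → σ * rate (u s) x e ≤ R s)
    (hcond : ∀ᵐ t, t ∈ Ioo s b → ∃ x e, Extreme σ (u t) x e ∧
      -(2 * ν * strainGradSq (u t) x e / (3 * (σ * rate (u t) x e)))
        - σ * (rate (u t) x e ^ 2 - perpSq (u t) x e / 4) - σ * hessRate (p t) x e
        ≤ θ * rate (u t) x e ^ 2 + μ t) :
    ∀ x e, Unit e → σ * rate (u b) x e ≤ R b := by
  have hσ2 : σ ^ 2 = 1 := by rw [← sq_abs, hσ, one_pow]
  have hsub : Icc s b ⊆ Ico 0 T := fun t ht => ⟨hs.le.trans ht.1, ht.2.trans_lt hb⟩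
  set F : ℝ → V × {e : V // Unit e} → ℝ := fun t q => σ * rate (u t) q.1 q.2 with hF
  choose B hB0 hB using fun i j => slab_bound (f := fun t y => gradM (u t) y i j)
    ((smooth_grad h i j).continuousOn.mono (prod_mono hsub subset_rfl))
    (fun t ht => (sp_grad h (hsub ht) i j).per)
  choose C hC0 hC using fun i j => time_lip (f := fun t y => gradM (u t) y i j)
    (smooth_grad h i j) (fun t ht => (sp_grad h ht i j).per) hs hb
  have hab : ∀ (A : Fin 3 → Fin 3 → ℝ) (M : Fin 3 → Fin 3 → ℝ) (e : V), Unit e →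
      (∀ i j, |A i j| ≤ M i j) → |σ * ∑ i, ∑ j, e i * A i j * e j| ≤ ∑ i, ∑ j, M i j := by
    intro A M e he hA
    rw [abs_mul, hσ, one_mul]
    refine (Finset.abs_sum_le_sum_abs _ _).trans (Finset.sum_le_sum fun i _ =>
      (Finset.abs_sum_le_sum_abs _ _).trans (Finset.sum_le_sum fun j _ => ?_))
    rw [abs_mul, abs_mul]
    have h1 := unit_abs he i
    have h2 := unit_abs he j
    have h3 := hA i j
    have h4 : 0 ≤ M i j := (abs_nonneg _).trans h3
    calc |e i| * |A i j| * |e j| ≤ 1 * M i j * 1 := by gcongr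
      _ = M i j := by ring
  have hBF : ∀ t ∈ Icc s b, ∀ q, F t q ≤ ∑ i, ∑ j, B i j := fun t ht q =>
    (le_abs_self _).trans (hab _ _ q.2 q.2.2 fun i j => hB i j t ht q.1)
  have hLF : ∀ r ∈ Icc s b, ∀ t ∈ Icc s b, ∀ q, F t q - F r q ≤ (∑ i, ∑ j, C i j) * |t - r| := by
    intro r hr t ht q
    have e1 : F t q - F r q = σ * ∑ i, ∑ j, (q.2 : V) i
        * (gradM (u t) q.1 i j - gradM (u r) q.1 i j) * (q.2 : V) j := by
      simp only [hF]
      unfold rate
      rw [← mul_sub, ← Finset.sum_sub_distrib]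
      congr 1
      refine Finset.sum_congr rfl fun i _ => ?_
      rw [← Finset.sum_sub_distrib]
      exact Finset.sum_congr rfl fun j _ => by ring
    rw [e1]
    refine (le_abs_self _).trans ((hab _ (fun i j => C i j * |t - r|) q.2 q.2.2
      fun i j => hC i j r hr t ht q.1).trans (le_of_eq ?_))
    rw [Finset.sum_mul]
    exact Finset.sum_congr rfl fun i _ => by rw [Finset.sum_mul]
  have hC0' : 0 ≤ ∑ i, ∑ j, C i j := Finset.sum_nonneg fun i _ =>
    Finset.sum_nonneg fun j _ => hC0 i j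
  have h1 := riccati (E := fun t => ⨆ q, F t q) (R := R) (R' := R') (μ := μ) (θ := θ)
    (Cm := ∑ i, ∑ j, B i j) hθ hsb hC0' (fun t ht => ciSup_le fun q => hBF t ht q)
    (fun r hr t ht => sup_lip hBF hLF hr ht) hR hRd hRi
    (ciSup_le fun q => h0 q.1 q.2 q.2.2) (by
      filter_upwards [hcond] with t k1 ht d hdE
      obtain ⟨x, e, hxe, hle⟩ := k1 ht
      have htT : t ∈ Ioo 0 T := ⟨hs.trans ht.1, ht.2.trans hb⟩
      obtain ⟨D, hD, hD2⟩ := rate_ext hσ2 hν h htT hxe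
      have hmax : ∀ q, F t q ≤ F t (x, ⟨e, hxe.1⟩) := fun q => hxe.2 q.1 q.2 q.2.2
      have e1 := sup_deriv (F := F) hBF ht hmax hD hdE
      rw [sup_eq hmax, e1]
      have e2 : (F t (x, ⟨e, hxe.1⟩)) ^ 2 = rate (u t) x e ^ 2 := by
        simp only [hF]
        rw [mul_pow, hσ2, one_mul]
      rw [e2]
      exact hD2.trans hle)
  intro x e he
  refine le_trans ?_ h1
  exact le_ciSup (f := F b) ⟨∑ i, ∑ j, B i j, by
    rintro _ ⟨q, rfl⟩; exact hBF b (right_mem_Icc.2 hsb) q⟩ (x, ⟨e, he⟩)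

theorem exists_extreme (h : IsSol ν T u p) {t : ℝ} (ht : t ∈ Ico 0 T) (σ : ℝ) :
    ∃ x e, Extreme σ (u t) x e := by
  obtain ⟨x, e, he, hmax⟩ := exists_max_unit (g := fun x e => σ * rate (u t) x e) (by
    have hc : ∀ i j, Continuous fun x => gradM (u t) x i j := fun i j => (sp_grad h ht i j).cont
    unfold rate
    refine continuous_const.mul (continuous_finsetSum _ fun i _ =>
      continuous_finsetSum _ fun j _ => ?_)
    exact (((continuous_apply i).comp continuous_snd).mul ((hc i j).comp continuous_fst)).mul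
      ((continuous_apply j).comp continuous_snd)) (fun e k x => congrArg (σ * ·) ((sp_rate h ht e).per k x))
  exact ⟨x, e, he, hmax⟩

theorem stretch_eq_rate (v : V → V) (x : V) : stretchRate v x = rate v x (vort v x) := rfl

theorem pw_int' {s γ C : ℝ} (hγ : γ < 1) (hs : s < T) :
    IntegrableOn (fun t => C * (T - t) ^ (-γ)) (Ioo s T) := by
  have h1 : IntervalIntegrable (fun t => (T - t) ^ (-γ)) volume s T := by
    have h2 : IntervalIntegrable (fun x : ℝ => x ^ (-γ)) volume (T - s) 0 :=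
      intervalIntegral.intervalIntegrable_rpow' (by linarith)
    have h3 := h2.comp_sub_left T
    rw [sub_sub_cancel, sub_zero] at h3
    exact h3
  have h3 := (intervalIntegrable_iff_integrableOn_Ioc_of_le hs.le).1 (h1.const_mul C)
  exact h3.mono_set Ioo_subset_Ioc_self

/-- the conclusion from the bound of the extreme rates -/
theorem finish {σ θ a K k : ℝ} (hσ : |σ| = 1) (hθ : 0 < θ) (ha0 : 0 ≤ a) (ha1 : a < 1 / 2)
    (hK : 0 ≤ K) (hk : 0 ≤ k) (hka : k * a / θ < 1) (hν : 0 < ν) (h : IsSol ν T u p) {s : ℝ}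
    (hs : s ∈ Ioo 0 T) {μ : ℝ → ℝ} (hμ : ∀ t ∈ Ioo s T, μ t = a * (1 - a) / θ / (T - t) ^ 2)
    (h0 : ∀ x e, Unit e → σ * rate (u s) x e ≤ Pool.Agent.TH340.RC.Rs T θ a K s)
    (hcond : ∀ᵐ t, t ∈ Ioo s T → ∃ x e, Extreme σ (u t) x e ∧
      -(2 * ν * strainGradSq (u t) x e / (3 * (σ * rate (u t) x e)))
        - σ * (rate (u t) x e ^ 2 - perpSq (u t) x e / 4) - σ * hessRate (p t) x e
        ≤ θ * rate (u t) x e ^ 2 + μ t)
    (hkr : ∀ t ∈ Ico s T, ∀ R : ℝ, (∀ x e, Unit e → σ * rate (u t) x e ≤ R) →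
      ∀ x, stretchRate (u t) x ≤ k * R * vortSq (u t) x) :
    ∃ M, ∀ t ∈ Ico 0 T, ∀ x i, |u t x i| ≤ M := by
  set R := Pool.Agent.TH340.RC.Rs T θ a K with hR
  have ha1' : a ≤ 1 := by linarith
  have hmono : MonotoneOn R (Ico s T) := Pool.Agent.TH340.RC.Rs_mono hθ hK ha0 ha1' s
  have hRd : ∀ t, t < T → HasDerivAt R (θ * R t ^ 2 + a * (1 - a) / θ / (T - t) ^ 2) t :=
    fun t ht => Pool.Agent.TH340.RC.Rs_deriv hθ hK ht
  have hR0 : ∀ t, t < T → 0 ≤ R t := fun t ht =>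
    Pool.Agent.TH340.RC.Rs_nonneg hθ hK ha0 ha1' ht
  have h1 : ∀ t ∈ Ico s T, ∀ x e, Unit e → σ * rate (u t) x e ≤ R t := by
    intro t ht
    refine rate_compare (μ := μ) hσ hθ.le hν.le h hs.1 ht.1 ht.2
      (hmono.mono (Icc_subset_Ico_right ht.2)) (fun r hr => hRd r (hr.2.trans ht.2))
      (fun r hr => ?_) h0 ?_
    · rw [hμ r ⟨hr.1, hr.2.trans ht.2⟩]
    · filter_upwards [hcond] with r k1 hr
      exact k1 ⟨hr.1, hr.2.trans ht.2⟩
  have hcont : ∀ t, t < T → ContinuousOn R (Icc s t) := fun t ht r hr =>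
    (hRd r (hr.2.trans_lt ht)).continuousAt.continuousWithinAt
  obtain ⟨W, hW0, hW⟩ := vort_growth hν h hs (ρ := fun t => k * R t)
    (fun t ht => mul_nonneg hk (hR0 t ht.2))
    (fun t ht => by
      refine ContinuousOn.intervalIntegrable ?_
      rw [uIcc_of_le ht.1.le]
      exact continuousOn_const.mul (hcont t ht.2))
    (Filter.Eventually.of_forall fun t ht => by
      have hI : t ∈ Ico 0 T := ⟨(hs.1.trans ht.1).le, ht.2⟩
      have hsp : SP (vortSq (u t)) := by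
        have : vortSq (u t) = fun x => ∑ i, vort (u t) x i * vort (u t) x i := by
          funext x
          exact Finset.sum_congr rfl fun i _ => sq _
        rw [this]
        exact SP.sum fun i _ => (sp_vort h hI i).mul (sp_vort h hI i)
      obtain ⟨x, hx⟩ := exists_max_per hsp.cont hsp.per
      refine ⟨x, hx, ?_⟩
      have h2 := hkr t ⟨ht.1.le, ht.2⟩ (R t) (h1 t ⟨ht.1.le, ht.2⟩) x
      have h3 : 0 ≤ ν * vortGradSq (u t) x :=
        mul_nonneg hν.le (Finset.sum_nonneg fun i _ => Finset.sum_nonneg fun j _ => sq_nonneg _)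
      linarith)
  set Z := Real.exp (k * Pool.Agent.TH340.RC.Zs T a K s / θ) with hZ
  refine bounded_of_vort hν h hs (F := fun t => W * Z * (T - t) ^ (-(k * a / θ)))
    (fun t ht => ?_) (pw_int' hka hs.2) (fun t ht x => ?_)
  · have : 0 ≤ T - t := by linarith [ht.2]
    have := Real.rpow_nonneg this (-(k * a / θ))
    positivity
  · refine (hW t ht x).trans ?_
    have h2 := Pool.Agent.TH340.RC.exp_int (T := T) (a := a) (t := t) hθ hK hk ht.1 ht.2
    rw [intervalIntegral.integral_const_mul]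
    have h3 : 0 ≤ W * Real.exp (k * ∫ r in s..t, R r) := by positivity
    refine pow_le_pow_left₀ h3 ?_ 2
    rw [mul_assoc]
    exact mul_le_mul_of_nonneg_left h2 hW0.le

/-- **Compression before a singularity.** -/
theorem crit_C {θ c : ℝ} (hθ : 0 < θ) (hc : 0 ≤ c) (h4 : 4 * θ * c < 1)
    (hlt : 1 - Real.sqrt (1 - 4 * θ * c) < θ) (hν : 0 < ν) (h : IsSol ν T u p) {s : ℝ}
    (hs : s ∈ Ioo 0 T) (hcond : ∀ᵐ t, t ∈ Ioo s T → CondC ν θ (c / (T - t) ^ 2) (u t) (p t))
    (hsing : ¬ ∃ M, ∀ t ∈ Ico 0 T, ∀ x i, |u t x i| ≤ M) :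
    ∃ x e, MostCompressed (u s) x e ∧
      rate (u s) x e ≤ -((1 + Real.sqrt (1 - 4 * θ * c)) / (2 * θ * (T - s))) := by
  obtain ⟨x, e, he, hext⟩ := exists_extreme h ⟨hs.1.le, hs.2⟩ (-1)
  have hmc : MostCompressed (u s) x e := ⟨he, fun y f hf => by
    have := hext y f hf
    linarith⟩
  refine ⟨x, e, hmc, ?_⟩
  by_contra hcon
  push Not at hcon
  refine hsing ?_
  obtain ⟨a, ha, ha0, ha1, hac, hb⟩ := Pool.Agent.TH340.RC.roots hθ hc h4
  have hys : 0 < T - s := by linarith [hs.2]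
  obtain ⟨K, hK0, hK⟩ := Pool.Agent.TH340.RC.exists_K (T := T) (θ := θ) (a := a) hθ ha1 hs.2
    (m := -rate (u s) x e) (by
      rw [hb]
      have : -rate (u s) x e < (1 + Real.sqrt (1 - 4 * θ * c)) / (2 * θ * (T - s)) := by linarith
      refine this.trans_le (le_of_eq ?_)
      field_simp)
  have hka : 2 * a / θ < 1 := by
    rw [ha, div_lt_one hθ]
    linarith
  refine finish (σ := -1) (k := 2) (by simp) hθ ha0 ha1 hK0 (by norm_num) hka hν h hs
    (μ := fun t => c / (T - t) ^ 2) (fun t _ => by rw [hac]) (fun y f hf => ?_) ?_ ?_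
  · have := hmc.2 y f hf
    linarith
  · filter_upwards [hcond] with t k1 ht
    obtain ⟨y, f, hyf, hle⟩ := k1 ht
    refine ⟨y, f, ⟨hyf.1, fun z g hg => by have := hyf.2 z g hg; linarith⟩, ?_⟩
    rw [neg_one_mul, neg_one_mul, neg_one_mul]
    linarith
  · intro t ht R hR y
    have hI : t ∈ Ico 0 T := ⟨hs.1.le.trans ht.1, ht.2⟩
    obtain ⟨z, g, hzg⟩ := exists_extreme h hI (-1)
    have h1 := hzg.low y (vort (u t) y) (trace_zero h hI y)
    have h2 := hR z g hzg.1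
    have h3 := vortSq_nonneg (u t) y
    have e1 : ∑ i, vort (u t) y i ^ 2 = vortSq (u t) y := rfl
    rw [e1] at h1
    rw [stretch_eq_rate]
    nlinarith

/-- **Stretching before a singularity.** -/
theorem crit_S {θ c : ℝ} (hθ : 0 < θ) (hc : 0 ≤ c) (h4 : 4 * θ * c < 1)
    (hlt : 1 - Real.sqrt (1 - 4 * θ * c) < 2 * θ) (hν : 0 < ν) (h : IsSol ν T u p) {s : ℝ}
    (hs : s ∈ Ioo 0 T) (hcond : ∀ᵐ t, t ∈ Ioo s T → CondS ν θ (c / (T - t) ^ 2) (u t) (p t))
    (hsing : ¬ ∃ M, ∀ t ∈ Ico 0 T, ∀ x i, |u t x i| ≤ M) :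
    ∃ x e, MostStretched (u s) x e ∧
      (1 + Real.sqrt (1 - 4 * θ * c)) / (2 * θ * (T - s)) ≤ rate (u s) x e := by
  obtain ⟨x, e, he, hext⟩ := exists_extreme h ⟨hs.1.le, hs.2⟩ 1
  have hmc : MostStretched (u s) x e := ⟨he, fun y f hf => by
    have := hext y f hf
    linarith⟩
  refine ⟨x, e, hmc, ?_⟩
  by_contra hcon
  push Not at hcon
  refine hsing ?_
  obtain ⟨a, ha, ha0, ha1, hac, hb⟩ := Pool.Agent.TH340.RC.roots hθ hc h4
  have hys : 0 < T - s := by linarith [hs.2]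
  obtain ⟨K, hK0, hK⟩ := Pool.Agent.TH340.RC.exists_K (T := T) (θ := θ) (a := a) hθ ha1 hs.2
    (m := rate (u s) x e) (by
      rw [hb]
      refine hcon.trans_le (le_of_eq ?_)
      field_simp)
  have hka : 1 * a / θ < 1 := by
    rw [ha, div_lt_one hθ]
    linarith
  refine finish (σ := 1) (k := 1) (by simp) hθ ha0 ha1 hK0 (by norm_num) hka hν h hs
    (μ := fun t => c / (T - t) ^ 2) (fun t _ => by rw [hac]) (fun y f hf => ?_) ?_ ?_
  · have := hmc.2 y f hf
    linarith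
  · filter_upwards [hcond] with t k1 ht
    obtain ⟨y, f, hyf, hle⟩ := k1 ht
    refine ⟨y, f, ⟨hyf.1, fun z g hg => by have := hyf.2 z g hg; linarith⟩, ?_⟩
    rw [one_mul, one_mul, one_mul]
    linarith
  · intro t ht R hR y
    have hI : t ∈ Ico 0 T := ⟨hs.1.le.trans ht.1, ht.2⟩
    obtain ⟨z, g, hzg⟩ := exists_extreme h hI 1
    have h1 := hzg.hom y (vort (u t) y)
    have h2 := hR z g hzg.1
    have h3 := vortSq_nonneg (u t) y
    have e1 : ∑ i, vort (u t) y i ^ 2 = vortSq (u t) y := rfl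
    rw [e1] at h1
    rw [stretch_eq_rate]
    nlinarith

end Pool.Agent.Q126.NS
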